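import Mathlib

/-!
# The choice of the primes
-/

set_option autoImplicit false

namespace Pool.Agent.V1143.CD

variable {ℓ : ℕ} [hℓ : Fact ℓ.Prime]

local instance : NeZero ℓ := ⟨hℓ.out.ne_zero⟩

/-- `z ^ ℓ - 1 = ℓ (z - 1) u` with a unit `u`, for `z ≡ 1` modulo `ℓ ^ 2`. -/
lemma pow_sub_one_eq {z : ℤ_[ℓ]} (hz : (ℓ : ℤ_[ℓ]) ^ 2 ∣ z - 1) :
    ∃ u : ℤ_[ℓ]ˣ, z ^ ℓ - 1 = ℓ * (z - 1) * u := by
  obtain ⟨t, ht⟩ := hz
  obtain ⟨w, hw⟩ := Polynomial.powAddExpansion (1 : ℤ_[ℓ]) (z - 1) ℓ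
  have hu : IsUnit (1 + (ℓ : ℤ_[ℓ]) * (t * w)) := by
    rw [PadicInt.isUnit_iff]
    have h1 : ‖(ℓ : ℤ_[ℓ]) * (t * w)‖ < 1 := by
      rw [PadicInt.norm_lt_one_iff_dvd]
      exact Dvd.intro _ rfl
    have h2 := PadicInt.norm_add_eq_max_of_ne (q := (1 : ℤ_[ℓ])) (r := (ℓ : ℤ_[ℓ]) * (t * w))
      (by rw [norm_one]; exact h1.ne')
    rw [h2, norm_one, max_eq_left h1.le]
  refine ⟨hu.unit, ?_⟩
  have e : (1 : ℤ_[ℓ]) + (z - 1) = z := by ring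
  rw [e] at hw
  rw [hw, IsUnit.unit_spec]
  simp only [one_pow, mul_one]
  rw [ht]
  ring

lemma dvd_of_dvd_pow_sub_one {z : ℤ_[ℓ]} (hz : (ℓ : ℤ_[ℓ]) ^ 2 ∣ z - 1) {B : ℕ}
    (h : (ℓ : ℤ_[ℓ]) ^ (B + 1) ∣ z ^ ℓ - 1) : (ℓ : ℤ_[ℓ]) ^ B ∣ z - 1 := by
  obtain ⟨u, hu⟩ := pow_sub_one_eq hz
  rw [hu, pow_succ'] at h
  have h1 : (ℓ : ℤ_[ℓ]) ^ B ∣ (z - 1) * u := by
    have h0 : (ℓ : ℤ_[ℓ]) ≠ 0 := by exact_mod_cast hℓ.out.ne_zero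
    rw [mul_assoc] at h
    exact (mul_dvd_mul_iff_left h0).1 h
  exact (Units.dvd_mul_right).1 h1

lemma dvd_pow_sub_one {z : ℤ_[ℓ]} {B : ℕ} (hB : 2 ≤ B) (hz : (ℓ : ℤ_[ℓ]) ^ B ∣ z - 1) :
    (ℓ : ℤ_[ℓ]) ^ (B + 1) ∣ z ^ ℓ - 1 := by
  obtain ⟨u, hu⟩ := pow_sub_one_eq ((pow_dvd_pow _ hB).trans hz)
  rw [hu, pow_succ']
  exact Dvd.dvd.mul_right (mul_dvd_mul_left _ hz) _

lemma eq_one_of_pow_eq_one {z : ℤ_[ℓ]} (hz : (ℓ : ℤ_[ℓ]) ^ 2 ∣ z - 1) (n : ℕ) :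
    z ^ (ℓ ^ n) = 1 → z = 1 := by
  induction n generalizing z with
  | zero =>
    intro h
    simpa using h
  | succ n ih =>
    intro h
    rw [pow_succ', pow_mul] at h
    have h1 := ih ((pow_dvd_pow _ (by norm_num)).trans (dvd_pow_sub_one le_rfl hz)) h
    obtain ⟨u, hu⟩ := pow_sub_one_eq hz
    rw [h1, sub_self] at hu
    have h0 : (ℓ : ℤ_[ℓ]) ≠ 0 := by exact_mod_cast hℓ.out.ne_zero
    have h2 : z - 1 = 0 := by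
      rcases mul_eq_zero.1 hu.symm with h3 | h3
      · exact (mul_eq_zero.1 h3).resolve_left h0
      · exact absurd h3 u.ne_zero
    exact sub_eq_zero.1 h2

lemma exists_root_one {a : ℤ_[ℓ]} {B : ℕ} (hB : 2 ≤ B) (ha : (ℓ : ℤ_[ℓ]) ^ (B + 1) ∣ a - 1) :
    ∃ y : ℤ_[ℓ], (ℓ : ℤ_[ℓ]) ^ B ∣ y - 1 ∧ y ^ ℓ = a := by
  have hℓ1 : (1 : ℝ) < ℓ := by exact_mod_cast hℓ.out.one_lt
  set F : Polynomial ℤ_[ℓ] := Polynomial.X ^ ℓ - Polynomial.C a with hF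
  have hF1 : F.aeval (1 : ℤ_[ℓ]) = 1 - a := by simp [hF]
  have hF2 : F.derivative.aeval (1 : ℤ_[ℓ]) = ℓ := by
    rw [hF, Polynomial.derivative_sub, Polynomial.derivative_C, sub_zero,
      Polynomial.derivative_X_pow]
    simp
  have h3 : ‖(1 : ℤ_[ℓ]) - a‖ ≤ (ℓ : ℝ) ^ (-(3 : ℕ) : ℤ) := by
    rw [PadicInt.norm_le_pow_iff_mem_span_pow, Ideal.mem_span_singleton, ← dvd_neg, neg_sub]
    exact (pow_dvd_pow _ (by omega)).trans ha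
  have hn : ‖F.aeval (1 : ℤ_[ℓ])‖ < ‖F.derivative.aeval (1 : ℤ_[ℓ])‖ ^ 2 := by
    rw [hF1, hF2, PadicInt.norm_p]
    refine h3.trans_lt ?_
    rw [zpow_neg, zpow_natCast, inv_pow]
    exact inv_strictAnti₀ (by positivity) (pow_lt_pow_right₀ hℓ1 (by norm_num))
  obtain ⟨y, hy, hy1, -, -⟩ := hensels_lemma hn
  rw [hF2, PadicInt.norm_p] at hy1
  have hy2 : (ℓ : ℤ_[ℓ]) ^ 2 ∣ y - 1 := by
    rw [← Ideal.mem_span_singleton, ← PadicInt.norm_le_pow_iff_mem_span_pow,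
      PadicInt.norm_le_pow_iff_norm_lt_pow_add_one]
    have : (ℓ : ℝ) ^ (-(2 : ℕ) + 1 : ℤ) = (ℓ : ℝ)⁻¹ := by
      norm_num
    rw [this]
    exact hy1
  have hy3 : y ^ ℓ = a := by
    have : F.aeval y = y ^ ℓ - a := by simp [hF]
    rw [this] at hy
    exact sub_eq_zero.1 hy
  exact ⟨y, dvd_of_dvd_pow_sub_one hy2 (by rw [hy3]; exact ha), hy3⟩

/-- The roots of order `ℓ ^ n` in `1 + ℓ ^ B ℤ_ℓ`. -/
lemma exists_root {B : ℕ} (hB : 2 ≤ B) (n : ℕ) :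
    ∀ a : ℤ_[ℓ], (ℓ : ℤ_[ℓ]) ^ (B + n) ∣ a - 1 →
      ∃ y : ℤ_[ℓ], (ℓ : ℤ_[ℓ]) ^ B ∣ y - 1 ∧ y ^ (ℓ ^ n) = a := by
  induction n with
  | zero =>
    intro a ha
    exact ⟨a, ha, by simp⟩
  | succ n ih =>
    intro a ha
    obtain ⟨y1, h1, h2⟩ := exists_root_one (B := B + n) (by omega) ha
    obtain ⟨y, h3, h4⟩ := ih y1 h1
    exact ⟨y, h3, by rw [pow_succ, pow_mul, h4, h2]⟩

/-- The choice of one prime. -/
lemma exists_prime_step {A B B' n m s L : ℕ} (hB : 2 ≤ B)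
    (hA : (ℓ : ℤ_[ℓ]) ^ (B + n) ∣ (A : ℤ_[ℓ]) - 1) (hm : Nat.Coprime m ℓ) (hm0 : m ≠ 0)
    (hs : Nat.Coprime s m) :
    ∃ p : ℕ, p.Prime ∧ L < p ∧ (ℓ : ℤ_[ℓ]) ^ B ∣ (p : ℤ_[ℓ]) - 1 ∧
      (ℓ : ℤ_[ℓ]) ^ (B' + (n + 1)) ∣ ((A * p ^ (ℓ ^ n) : ℕ) : ℤ_[ℓ]) - 1 ∧ p ≡ s [MOD m] := by
  have hunit : ∀ z : ℤ_[ℓ], (ℓ : ℤ_[ℓ]) ∣ z - 1 → IsUnit z := by
    intro z hz
    rw [PadicInt.isUnit_iff]
    have h1 : ‖z - 1‖ < 1 := by rwa [PadicInt.norm_lt_one_iff_dvd]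
    have h2 := PadicInt.norm_add_eq_max_of_ne (q := (1 : ℤ_[ℓ])) (r := z - 1)
      (by rw [norm_one]; exact h1.ne')
    have e : (1 : ℤ_[ℓ]) + (z - 1) = z := by ring
    rw [e, norm_one, max_eq_left h1.le] at h2
    exact h2
  have hAu : IsUnit (A : ℤ_[ℓ]) := hunit _ ((dvd_pow_self _ (by omega)).trans hA)
  obtain ⟨A', hA'⟩ := hAu.exists_right_inv
  have hA'1 : (ℓ : ℤ_[ℓ]) ^ (B + n) ∣ A' - 1 := by
    have e : A' - 1 = -A' * ((A : ℤ_[ℓ]) - 1) := by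
      have : A' - 1 = A' - A * A' := by rw [hA']
      rw [this]
      ring
    rw [e]
    exact Dvd.dvd.mul_left hA _
  obtain ⟨y, hy1, hy2⟩ := exists_root hB n A' hA'1
  set N := B' + (n + 1) + B with hN
  have hy0 : (ℓ : ℤ_[ℓ]) ^ N ∣ y - (y.appr N : ℤ_[ℓ]) := by
    rw [← Ideal.mem_span_singleton]
    exact y.appr_spec N
  set y0 := y.appr N with hy0def
  have hyu : IsUnit y := hunit _ ((dvd_pow_self _ (by omega)).trans hy1)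
  have hcop : Nat.Coprime y0 ℓ := by
    rw [Nat.coprime_comm, Nat.Prime.coprime_iff_not_dvd hℓ.out]
    intro hdvd
    have h1 : (ℓ : ℤ_[ℓ]) ∣ (y0 : ℤ_[ℓ]) := by
      obtain ⟨c, hc⟩ := hdvd
      exact ⟨c, by rw [hc]; push_cast; rfl⟩
    have h2 : (ℓ : ℤ_[ℓ]) ∣ y := by
      have h3 := (dvd_pow_self (ℓ : ℤ_[ℓ]) (n := N) (by omega)).trans hy0
      have e : y = (y - (y0 : ℤ_[ℓ])) + y0 := by ring
      rw [e]
      exact dvd_add h3 h1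
    exact (PadicInt.prime_p).not_isUnit (isUnit_of_dvd_unit h2 hyu)
  have hco : Nat.Coprime (ℓ ^ N) m := (Nat.Coprime.pow_left N hm.symm)
  obtain ⟨k, hk1, hk2⟩ := Nat.chineseRemainder hco y0 s
  have : NeZero (ℓ ^ N * m) := ⟨mul_ne_zero (pow_ne_zero _ hℓ.out.ne_zero) hm0⟩
  have hku : IsUnit (k : ZMod (ℓ ^ N * m)) := by
    rw [ZMod.isUnit_iff_coprime]
    apply Nat.Coprime.mul_right
    · apply Nat.Coprime.pow_right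
      have h1 : k ≡ y0 [MOD ℓ] := hk1.of_dvd (dvd_pow_self _ (by omega))
      rw [Nat.Coprime, h1.gcd_eq]
      exact hcop
    · rw [Nat.Coprime, hk2.gcd_eq]
      exact hs
  obtain ⟨p, hpL, hpp, hpk⟩ := Nat.forall_exists_prime_gt_and_eq_mod hku L
  have hpk' : p ≡ k [MOD ℓ ^ N * m] := (ZMod.natCast_eq_natCast_iff _ _ _).1 hpk
  have hpy0 : p ≡ y0 [MOD ℓ ^ N] := (hpk'.of_dvd (Dvd.intro _ rfl)).trans hk1
  have hps : p ≡ s [MOD m] := (hpk'.of_dvd (Dvd.intro_left _ rfl)).trans hk2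
  have hpy : (ℓ : ℤ_[ℓ]) ^ N ∣ (p : ℤ_[ℓ]) - y := by
    have h1 : (ℓ : ℤ_[ℓ]) ^ N ∣ (p : ℤ_[ℓ]) - y0 := by
      have h2 : ((ℓ ^ N : ℕ) : ℤ) ∣ (p : ℤ) - y0 := hpy0.symm.dvd
      obtain ⟨c, hc⟩ := h2
      refine ⟨c, ?_⟩
      have := congrArg (Int.cast : ℤ → ℤ_[ℓ]) hc
      push_cast at this
      exact this
    have e : (p : ℤ_[ℓ]) - y = ((p : ℤ_[ℓ]) - y0) - (y - y0) := by ring
    rw [e]
    exact dvd_sub h1 hy0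
  refine ⟨p, hpp, hpL, ?_, ?_, hps⟩
  · have e : (p : ℤ_[ℓ]) - 1 = ((p : ℤ_[ℓ]) - y) + (y - 1) := by ring
    rw [e]
    exact dvd_add ((pow_dvd_pow _ (by omega)).trans hpy) hy1
  · have e : ((A * p ^ (ℓ ^ n) : ℕ) : ℤ_[ℓ]) - 1 = A * ((p : ℤ_[ℓ]) ^ (ℓ ^ n) - y ^ (ℓ ^ n)) := by
      push_cast
      rw [mul_sub, hy2, hA']
    rw [e]
    refine Dvd.dvd.mul_left ?_ _
    exact (pow_dvd_pow _ (by omega)).trans (hpy.trans (sub_dvd_pow_sub_pow _ _ _))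

/-- Non-powers modulo `p`. -/
lemma exists_not_power {p : ℕ} [hp : Fact p.Prime] {i : ℕ} (hi : ℓ ^ (i + 1) ∣ p - 1) (b : ℕ) :
    ∃ s : ℕ, Nat.Coprime s p ∧
      ∀ x : ZMod p, x ^ (ℓ ^ (i + 1)) ≠ ((b * s ^ (ℓ ^ i) : ℕ) : ZMod p) ∨ (b : ZMod p) = 0 := by
  by_cases hb : (b : ZMod p) = 0
  · exact ⟨1, Nat.coprime_one_left p, fun _ => Or.inr hb⟩
  obtain ⟨g, hg⟩ := IsCyclic.exists_generator (α := (ZMod p)ˣ)
  have hord : orderOf g = p - 1 := by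
    rw [orderOf_eq_card_of_forall_mem_zpowers hg, Nat.card_eq_fintype_card, ZMod.card_units]
  by_contra hcon
  push Not at hcon
  obtain ⟨x, hx, -⟩ := hcon 1 (Nat.coprime_one_left p)
  obtain ⟨y, hy, -⟩ := hcon (g : ZMod p).val (by
    have := (ZMod.unitOfCoprime _ (ZMod.val_coe_unit_coprime g)).isUnit
    exact ZMod.val_coe_unit_coprime g)
  rw [one_pow, mul_one] at hx
  have hgv : (((g : ZMod p).val : ℕ) : ZMod p) = g := ZMod.natCast_zmod_val _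
  rw [Nat.cast_mul, Nat.cast_pow, hgv, ← hx] at hy
  have hx0 : x ≠ 0 := by
    rintro rfl
    rw [zero_pow (pow_ne_zero _ hℓ.out.ne_zero)] at hx
    exact hb hx.symm
  have hy0 : y ≠ 0 := by
    rintro rfl
    rw [zero_pow (pow_ne_zero _ hℓ.out.ne_zero)] at hy
    exact mul_ne_zero (pow_ne_zero _ hx0) (pow_ne_zero _ g.ne_zero) hy.symm
  have h1 : (y / x) ^ (ℓ ^ (i + 1)) = (g : ZMod p) ^ (ℓ ^ i) := by
    rw [div_pow, hy, mul_div_cancel_left₀ _ (pow_ne_zero _ hx0)]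
  obtain ⟨d, hd⟩ := hi
  have hp1 : 0 < p - 1 := by
    have := hp.out.two_le
    omega
  have h2 : g ^ (ℓ ^ i * d) = 1 := by
    ext
    rw [Units.val_pow_eq_pow_val, pow_mul, ← h1, ← pow_mul, ← hd, Units.val_one]
    exact ZMod.pow_card_sub_one_eq_one (div_ne_zero hy0 hx0)
  have h3 := orderOf_dvd_of_pow_eq_one h2
  rw [hord, hd, pow_succ, mul_assoc] at h3
  have hd0 : 0 < d := by
    rcases Nat.eq_zero_or_pos d with h | h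
    · rw [h, mul_zero] at hd
      omega
    · exact h
  have h4 := Nat.le_of_dvd (Nat.mul_pos (pow_pos hℓ.out.pos _) hd0) h3
  have h5 : ℓ ^ i * (2 * d) ≤ ℓ ^ i * (ℓ * d) :=
    Nat.mul_le_mul_left _ (Nat.mul_le_mul_right _ hℓ.out.two_le)
  have h6 : 0 < ℓ ^ i * d := Nat.mul_pos (pow_pos hℓ.out.pos _) hd0
  have h7 : ℓ ^ i * (2 * d) = 2 * (ℓ ^ i * d) := by ring
  omega

/-- The exponents. -/
def expB (i : ℕ) : ℕ := 4 * i + 4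

/-- The state after `i` choices: `a`, `b` and a bound. -/
structure State (ℓ : ℕ) [Fact ℓ.Prime] (i : ℕ) where
  a : ℕ
  b : ℕ
  L : ℕ
  a_pos : 0 < a
  b_pos : 0 < b
  a_le : a ≤ L
  b_le : b ≤ L
  ℓ_le : ℓ ≤ L
  ha : (ℓ : ℤ_[ℓ]) ^ (expB i + i) ∣ (a : ℤ_[ℓ]) - 1
  hb : (ℓ : ℤ_[ℓ]) ^ (expB i + i) ∣ (b : ℤ_[ℓ]) - 1

/-- The next pair of primes. -/
structure Next {i : ℕ} (S : State ℓ i) where
  p : ℕ
  q : ℕ
  S' : State ℓ (i + 1)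
  hp : p.Prime
  hq : q.Prime
  Lp : S.L < p
  pq : p < q
  qL : q ≤ S'.L
  p1 : (ℓ : ℤ_[ℓ]) ^ (expB i) ∣ (p : ℤ_[ℓ]) - 1
  q1 : (ℓ : ℤ_[ℓ]) ^ (expB i) ∣ (q : ℤ_[ℓ]) - 1
  ha' : S'.a = S.a * p ^ (ℓ ^ i)
  hb' : S'.b = S.b * q ^ (ℓ ^ i)
  hnot : ∀ x : ZMod p, x ^ (ℓ ^ (i + 1)) ≠ (S'.b : ZMod p)

lemma dvd_of_dvd_padic {n m : ℕ} (h : (ℓ : ℤ_[ℓ]) ^ n ∣ (m : ℤ_[ℓ]) - 1) (hm : 1 ≤ m) :
    ℓ ^ n ∣ m - 1 := by
  have h1 : (ℓ : ℤ_[ℓ]) ^ n ∣ (((m - 1 : ℕ) : ℤ) : ℤ_[ℓ]) := by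
    push_cast [Nat.cast_sub hm]
    exact h
  rw [PadicInt.pow_p_dvd_int_iff] at h1
  exact_mod_cast h1

lemma exists_next {i : ℕ} (S : State ℓ i) : Nonempty (Next S) := by
  obtain ⟨p, hp, hLp, hp1, hap, -⟩ := exists_prime_step (B := expB i) (B' := expB (i + 1)) (n := i)
    (m := 1) (s := 1) (L := S.L) (by unfold expB; omega) S.ha (Nat.coprime_one_left ℓ) one_ne_zero
    (Nat.coprime_one_right 1)
  have : Fact p.Prime := ⟨hp⟩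
  have hdvd : ℓ ^ (i + 1) ∣ p - 1 :=
    (pow_dvd_pow ℓ (by unfold expB; omega : i + 1 ≤ expB i)).trans
      (dvd_of_dvd_padic hp1 hp.one_le)
  obtain ⟨s, hs, hnot⟩ := exists_not_power hdvd S.b
  have hpℓ : Nat.Coprime p ℓ := by
    rw [Nat.coprime_primes hp hℓ.out]
    have := S.ℓ_le
    omega
  obtain ⟨q, hq, hpq, hq1, hbq, hqs⟩ := exists_prime_step (B := expB i) (B' := expB (i + 1)) (n := i)
    (m := p) (s := s) (L := p) (by unfold expB; omega) S.hb hpℓ hp.ne_zero hs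
  have hb0 : (S.b : ZMod p) ≠ 0 := by
    rw [Ne, ZMod.natCast_eq_zero_iff]
    intro h
    have := Nat.le_of_dvd S.b_pos h
    have := S.b_le
    omega
  have hL : S.a * p ^ (ℓ ^ i) ≤ q + S.a * p ^ (ℓ ^ i) + S.b * q ^ (ℓ ^ i) + ℓ := by omega
  have hL2 : S.b * q ^ (ℓ ^ i) ≤ q + S.a * p ^ (ℓ ^ i) + S.b * q ^ (ℓ ^ i) + ℓ := by omega
  have hL3 : ℓ ≤ q + S.a * p ^ (ℓ ^ i) + S.b * q ^ (ℓ ^ i) + ℓ := by omega
  have hL4 : q ≤ q + S.a * p ^ (ℓ ^ i) + S.b * q ^ (ℓ ^ i) + ℓ := by omega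
  let T : State ℓ (i + 1) := State.mk (S.a * p ^ (ℓ ^ i)) (S.b * q ^ (ℓ ^ i))
    (q + S.a * p ^ (ℓ ^ i) + S.b * q ^ (ℓ ^ i) + ℓ) (Nat.mul_pos S.a_pos (pow_pos hp.pos _))
    (Nat.mul_pos S.b_pos (pow_pos hq.pos _)) hL hL2 hL3 hap hbq
  refine ⟨Next.mk p q T hp hq hLp hpq hL4 hp1 hq1 rfl rfl ?_⟩
  intro x hx
  have h1 := (hnot x).resolve_right hb0
  apply h1
  rw [hx]
  have h2 : (q : ZMod p) = s := (ZMod.natCast_eq_natCast_iff _ _ _).2 hqs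
  change ((S.b * q ^ (ℓ ^ i) : ℕ) : ZMod p) = _
  push_cast
  rw [h2]

/-- The sequence of states. -/
noncomputable def states (ℓ : ℕ) [Fact ℓ.Prime] : (i : ℕ) → State ℓ i
  | 0 => { a := 1, b := 1, L := ℓ + 1, a_pos := one_pos, b_pos := one_pos, a_le := by omega,
           b_le := by omega, ℓ_le := by omega, ha := by simp, hb := by simp }
  | i + 1 => (exists_next (states ℓ i)).some.S'

/-- The primes. -/
structure PrimeData (ℓ : ℕ) [Fact ℓ.Prime] where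
  p : ℕ → ℕ
  q : ℕ → ℕ
  a : ℕ → ℕ
  b : ℕ → ℕ
  hp : ∀ i, (p i).Prime
  hq : ∀ i, (q i).Prime
  a_zero : a 0 = 1
  b_zero : b 0 = 1
  a_succ : ∀ i, a (i + 1) = a i * p i ^ (ℓ ^ i)
  b_succ : ∀ i, b (i + 1) = b i * q i ^ (ℓ ^ i)
  ha : ∀ i, (ℓ : ℤ_[ℓ]) ^ (expB i + i) ∣ (a i : ℤ_[ℓ]) - 1
  hb : ∀ i, (ℓ : ℤ_[ℓ]) ^ (expB i + i) ∣ (b i : ℤ_[ℓ]) - 1
  p1' : ∀ i, (ℓ : ℤ_[ℓ]) ^ (expB i) ∣ (p i : ℤ_[ℓ]) - 1
  q1' : ∀ i, (ℓ : ℤ_[ℓ]) ^ (expB i) ∣ (q i : ℤ_[ℓ]) - 1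
  p1 : ∀ i, ℓ ^ (expB i) ∣ p i - 1
  ℓp : ∀ i, ℓ < p i
  pa : ∀ i, ¬ p i ∣ a i
  pb : ∀ i n, ¬ p i ∣ b n
  hnot : ∀ i, ∀ x : ZMod (p i), x ^ (ℓ ^ (i + 1)) ≠ (b (i + 1) : ZMod (p i))

theorem exists_primeData (ℓ : ℕ) [hℓ : Fact ℓ.Prime] : Nonempty (PrimeData ℓ) := by
  let N : (i : ℕ) → Next (states ℓ i) := fun i => (exists_next (states ℓ i)).some
  have hS : ∀ i, states ℓ (i + 1) = (N i).S' := fun i => rfl
  have hL : ∀ i, (states ℓ i).L < (N i).q ∧ (N i).q ≤ (states ℓ (i + 1)).L := fun i =>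
    ⟨(N i).Lp.trans (N i).pq, by rw [hS]; exact (N i).qL⟩
  have hmono : ∀ i j, i ≤ j → (states ℓ i).L ≤ (states ℓ j).L := by
    intro i j hij
    induction hij with
    | refl => exact le_rfl
    | step _ ih => exact ih.trans ((hL _).1.le.trans (hL _).2)
  have hqmono : ∀ i j, i ≤ j → (N i).q ≤ (N j).q := by
    intro i j hij
    rcases Nat.eq_or_lt_of_le hij with h | h
    · rw [h]
    · exact (hL i).2.trans ((hmono (i + 1) j h).trans (hL j).1.le)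
  have hnd : ∀ (p c L : ℕ), 0 < c → c ≤ L → L < p → ¬ p ∣ c := by
    intro p c L hc hcL hLp h
    have := Nat.le_of_dvd hc h
    omega
  refine ⟨{ p := fun i => (N i).p, q := fun i => (N i).q, a := fun i => (states ℓ i).a,
            b := fun i => (states ℓ i).b, hp := fun i => (N i).hp, hq := fun i => (N i).hq,
            a_zero := rfl, b_zero := rfl, a_succ := fun i => by rw [hS]; exact (N i).ha',
            b_succ := fun i => by rw [hS]; exact (N i).hb', ha := fun i => (states ℓ i).ha,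
            hb := fun i => (states ℓ i).hb,
            p1' := fun i => (N i).p1, q1' := fun i => (N i).q1,
            p1 := fun i => dvd_of_dvd_padic (N i).p1 (N i).hp.one_le,
            ℓp := fun i => lt_of_le_of_lt (states ℓ i).ℓ_le (N i).Lp,
            pa := fun i => hnd _ _ _ (states ℓ i).a_pos (states ℓ i).a_le (N i).Lp,
            pb := ?_, hnot := fun i => by rw [hS]; exact (N i).hnot }⟩
  intro i n
  rcases Nat.lt_or_ge i n with h | h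
  · -- by induction from `i`
    have key : ∀ k, ¬ (N i).p ∣ (states ℓ (i + k)).b := by
      intro k
      induction k with
      | zero => exact hnd _ _ _ (states ℓ i).b_pos (states ℓ i).b_le (N i).Lp
      | succ k ih =>
        have e : (states ℓ (i + (k + 1))).b = (states ℓ (i + k)).b * (N (i + k)).q ^ (ℓ ^ (i + k)) :=
          (N (i + k)).hb'
        rw [e, (N i).hp.dvd_mul]
        rintro (h1 | h1)
        · exact ih h1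
        · have h2 := (N i).hp.dvd_of_dvd_pow h1
          have h3 := (Nat.prime_dvd_prime_iff_eq (N i).hp (N (i + k)).hq).1 h2
          have h4 := hqmono i (i + k) (Nat.le_add_right _ _)
          have h5 := (N i).pq
          omega
    obtain ⟨k, rfl⟩ := Nat.exists_eq_add_of_le h.le
    exact key k
  · refine hnd _ _ _ (states ℓ n).b_pos (states ℓ n).b_le ?_
    exact lt_of_le_of_lt (hmono n i h) (N i).Lp

/-- The `ℓ`-adic roots. -/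
lemma exists_padic_roots {a p : ℕ → ℕ} (a0 : a 0 = 1) (a1 : ∀ i, a (i + 1) = a i * p i ^ (ℓ ^ i))
    (ha : ∀ i, (ℓ : ℤ_[ℓ]) ^ (expB i + i) ∣ (a i : ℤ_[ℓ]) - 1)
    (hp : ∀ i, (ℓ : ℤ_[ℓ]) ^ (expB i) ∣ (p i : ℤ_[ℓ]) - 1) :
    ∃ y : ℕ → ℤ_[ℓ], y 0 = 1 ∧ (∀ n, y n ^ (ℓ ^ n) = a n) ∧ ∀ n, y (n + 1) ^ ℓ = p n * y n := by
  have h : ∀ n, ∃ y : ℤ_[ℓ], (ℓ : ℤ_[ℓ]) ^ (expB n) ∣ y - 1 ∧ y ^ (ℓ ^ n) = a n := fun n =>
    exists_root (by unfold expB; omega) n _ (ha n)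
  choose y hy1 hy2 using h
  have hsq : ∀ n, (ℓ : ℤ_[ℓ]) ^ 2 ∣ y n - 1 := fun n =>
    (pow_dvd_pow _ (by unfold expB; omega)).trans (hy1 n)
  refine ⟨y, ?_, hy2, fun n => ?_⟩
  · have := hy2 0
    simpa [a0] using this
  have h1 : (ℓ : ℤ_[ℓ]) ^ 2 ∣ y (n + 1) ^ ℓ - 1 :=
    (pow_dvd_pow _ (by norm_num)).trans (dvd_pow_sub_one le_rfl (hsq (n + 1)))
  have h2 : (ℓ : ℤ_[ℓ]) ^ 2 ∣ (p n : ℤ_[ℓ]) * y n - 1 := by
    have e : (p n : ℤ_[ℓ]) * y n - 1 = ((p n : ℤ_[ℓ]) - 1) * y n + (y n - 1) := by ring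
    rw [e]
    exact dvd_add (Dvd.dvd.mul_right ((pow_dvd_pow _ (by unfold expB; omega)).trans (hp n)) _)
      (hsq n)
  have h3 : (y (n + 1) ^ ℓ) ^ (ℓ ^ n) = ((p n : ℤ_[ℓ]) * y n) ^ (ℓ ^ n) := by
    rw [← pow_mul, ← pow_succ', hy2, mul_pow, hy2, a1]
    push_cast
    ring
  have hunit : IsUnit ((p n : ℤ_[ℓ]) * y n) := by
    rw [PadicInt.isUnit_iff]
    have h1 : ‖(p n : ℤ_[ℓ]) * y n - 1‖ < 1 := by
      rw [PadicInt.norm_lt_one_iff_dvd]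
      exact (dvd_pow_self _ (by norm_num)).trans h2
    have h2 := PadicInt.norm_add_eq_max_of_ne (q := (1 : ℤ_[ℓ])) (r := (p n : ℤ_[ℓ]) * y n - 1)
      (by rw [norm_one]; exact h1.ne')
    have e : (1 : ℤ_[ℓ]) + ((p n : ℤ_[ℓ]) * y n - 1) = (p n : ℤ_[ℓ]) * y n := by ring
    rw [e, norm_one, max_eq_left h1.le] at h2
    exact h2
  obtain ⟨u, hu⟩ := hunit.exists_right_inv
  have h4 : (ℓ : ℤ_[ℓ]) ^ 2 ∣ y (n + 1) ^ ℓ * u - 1 := by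
    have e : y (n + 1) ^ ℓ * u - 1 =
        ((y (n + 1) ^ ℓ - 1) - ((p n : ℤ_[ℓ]) * y n - 1)) * u := by
      have : y (n + 1) ^ ℓ * u - 1 = y (n + 1) ^ ℓ * u - (p n : ℤ_[ℓ]) * y n * u := by rw [hu]
      rw [this]
      ring
    rw [e]
    exact Dvd.dvd.mul_right (dvd_sub h1 h2) _
  have h5 : (y (n + 1) ^ ℓ * u) ^ (ℓ ^ n) = 1 := by
    rw [mul_pow, h3, ← mul_pow, hu, one_pow]
  have h6 := eq_one_of_pow_eq_one h4 n h5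
  calc y (n + 1) ^ ℓ = y (n + 1) ^ ℓ * ((p n : ℤ_[ℓ]) * y n * u) := by rw [hu, mul_one]
    _ = (y (n + 1) ^ ℓ * u) * ((p n : ℤ_[ℓ]) * y n) := by ring
    _ = _ := by rw [h6, one_mul]

end Pool.Agent.V1143.CD
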