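import Pool.Agent.V1143.CD.Objects
import Pool.Agent.V1143.CD.Primes

/-!
# Tate twists, Kummer extensions and their product
-/

set_option autoImplicit false

noncomputable section

namespace Pool.Agent.V1143.CD

open NumberField TensorProduct

variable {ℓ : ℕ} [hℓ : Fact ℓ.Prime]

variable (ℓ) in
/-- The Tate twist `ℚ_ℓ(n)`. -/
def tw (n : ℕ) : Rep ℓ where
  V := ℚ_[ℓ]
  ρ :=
    { toFun := fun g => chiQ ℓ g ^ n • LinearMap.id
      map_one' := by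
        ext
        simp [chiQ_one]
      map_mul' := fun g h => by
        ext
        simp only [chiQ_mul, mul_pow, LinearMap.smul_apply, LinearMap.id_apply, smul_eq_mul,
          Module.End.mul_apply]
        ring }
  cont v f := by
    have e : (fun g => f ((chiQ ℓ g ^ n • (LinearMap.id : ℚ_[ℓ] →ₗ[ℚ_[ℓ]] ℚ_[ℓ])) v)) =
        fun g => chiQ ℓ g ^ n * f v := by
      funext g
      rw [LinearMap.smul_apply, LinearMap.id_apply, map_smul, smul_eq_mul]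
    change Continuous (fun g => f ((chiQ ℓ g ^ n • (LinearMap.id : ℚ_[ℓ] →ₗ[ℚ_[ℓ]] ℚ_[ℓ])) v))
    rw [e]
    exact (continuous_chiQ.pow n).mul continuous_const

lemma tw_apply (n : ℕ) (g : GQ) (v : ℚ_[ℓ]) : (tw ℓ n).ρ g v = chiQ ℓ g ^ n * v := rfl

/-- The Kummer cocycle with values in `ℚ_ℓ`. -/
def kapQ (K : Kum ℓ) (g : GQ) : ℚ_[ℓ] := (K.kap g : ℚ_[ℓ])

lemma kapQ_mul (K : Kum ℓ) (g h : GQ) : kapQ K (g * h) = kapQ K g + chiQ ℓ g * kapQ K h := by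
  unfold kapQ chiQ
  rw [K.kap_mul]
  push_cast
  rfl

lemma kapQ_one (K : Kum ℓ) : kapQ K 1 = 0 := by
  unfold kapQ
  rw [K.kap_one]
  simp

lemma continuous_kapQ (K : Kum ℓ) : Continuous (kapQ K) := continuous_coe.comp K.continuous_kap

/-- The action on the extension of `ℚ_ℓ(n)` by `ℚ_ℓ(n + 1)` given by a Kummer cocycle. -/
def extLin (n : ℕ) (K : Kum ℓ) (g : GQ) : (ℚ_[ℓ] × ℚ_[ℓ]) →ₗ[ℚ_[ℓ]] (ℚ_[ℓ] × ℚ_[ℓ]) where
  toFun v := (chiQ ℓ g ^ n * (chiQ ℓ g * v.1 + kapQ K g * v.2), chiQ ℓ g ^ n * v.2)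
  map_add' v w := by
    ext
    · simp only [Prod.fst_add, Prod.snd_add]
      ring
    · simp only [Prod.snd_add]
      ring
  map_smul' c v := by
    ext
    · simp only [Prod.smul_fst, Prod.smul_snd, smul_eq_mul, RingHom.id_apply]
      ring
    · simp only [Prod.smul_snd, smul_eq_mul, RingHom.id_apply]
      ring

/-- The extension of `ℚ_ℓ(n)` by `ℚ_ℓ(n + 1)` given by a Kummer cocycle. -/
def extK (n : ℕ) (K : Kum ℓ) : Rep ℓ where
  V := ℚ_[ℓ] × ℚ_[ℓ]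
  ρ :=
    { toFun := extLin n K
      map_one' := by
        ext <;> simp [extLin, chiQ_one, kapQ_one]
      map_mul' := fun g h => by
        apply LinearMap.ext
        intro v
        rw [Module.End.mul_apply]
        ext
        · simp only [extLin, chiQ_mul, kapQ_mul, mul_pow, LinearMap.coe_mk, AddHom.coe_mk]
          ring
        · simp only [extLin, chiQ_mul, mul_pow, LinearMap.coe_mk, AddHom.coe_mk]
          ring }
  cont v f := by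
    have e : (fun g => f (extLin n K g v)) = fun g =>
        (chiQ ℓ g ^ n * (chiQ ℓ g * v.1 + kapQ K g * v.2)) * f (1, 0) +
        (chiQ ℓ g ^ n * v.2) * f (0, 1) := by
      funext g
      have h : extLin n K g v = (chiQ ℓ g ^ n * (chiQ ℓ g * v.1 + kapQ K g * v.2)) •
          ((1, 0) : ℚ_[ℓ] × ℚ_[ℓ]) + (chiQ ℓ g ^ n * v.2) • ((0, 1) : ℚ_[ℓ] × ℚ_[ℓ]) := by
        ext
        · simp [extLin]
        · simp [extLin]
      rw [h, map_add, map_smul, map_smul, smul_eq_mul, smul_eq_mul]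
    change Continuous (fun g => f (extLin n K g v))
    rw [e]
    have h1 := continuous_chiQ (ℓ := ℓ)
    have h2 := continuous_kapQ K
    fun_prop

lemma extK_apply (n : ℕ) (K : Kum ℓ) (g : GQ) (v : ℚ_[ℓ] × ℚ_[ℓ]) : (extK n K).ρ g v =
    (chiQ ℓ g ^ n * (chiQ ℓ g * v.1 + kapQ K g * v.2), chiQ ℓ g ^ n * v.2) := rfl

/-- The filtration of the Tate twist. -/
def twFilt (n : ℕ) : Filt (tw ℓ n) where
  W m := if m < -(2 * (n : ℤ)) then ⊥ else ⊤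
  mono := by
    intro a b hab
    change (if a < -(2 * (n : ℤ)) then (⊥ : Submodule ℚ_[ℓ] (tw ℓ n).V) else ⊤) ≤
      if b < -(2 * (n : ℤ)) then (⊥ : Submodule ℚ_[ℓ] (tw ℓ n).V) else ⊤
    split_ifs with h1 h2
    · exact le_rfl
    · exact bot_le
    · omega
    · exact le_rfl
  stable m g v hv := by
    split_ifs at hv ⊢ with h1
    · rw [Submodule.mem_bot] at hv ⊢
      rw [hv, map_zero]
    · trivial
  bot := ⟨-(2 * (n : ℤ)) - 1, if_pos (by omega)⟩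
  top := ⟨-(2 * (n : ℤ)), if_neg (by omega)⟩

lemma tw_mixed (n : ℕ) : Mixed (tw ℓ n) := by
  apply mixed_of (twFilt n)
  intro m
  by_cases h1 : m = -(2 * (n : ℤ))
  · right
    refine ⟨n, h1, fun g v _ => ?_⟩
    have e : (tw ℓ n).ρ g v - chiQ ℓ g ^ n • v = 0 := sub_self _
    rw [e]
    exact zero_mem _
  · left
    change (if m < -(2 * (n : ℤ)) then (⊥ : Submodule ℚ_[ℓ] (tw ℓ n).V) else ⊤) ≤
      if m - 1 < -(2 * (n : ℤ)) then (⊥ : Submodule ℚ_[ℓ] (tw ℓ n).V) else ⊤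
    split_ifs with h2 h3
    · exact le_rfl
    · exact bot_le
    · omega
    · exact le_rfl

lemma tw_potAdmissible (B : PeriodRing ℓ) (n : ℕ) : PotAdmissible B (tw ℓ n) := by
  refine potAdmissible_of B (tw ℓ n) (d := 1)
    (Module.Basis.singleton (Fin 1) ℚ_[ℓ] : Module.Basis (Fin 1) ℚ_[ℓ] ℚ_[ℓ]) (fun _ => n) ?_
  intro g i
  rfl

lemma tw_inC (B : PeriodRing ℓ) (n : ℕ) : InC B (tw ℓ n) := ⟨tw_mixed n, tw_potAdmissible B n⟩

/-- The line `ℚ_ℓ(n + 1)` in the extension. -/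
def line (n : ℕ) (K : Kum ℓ) : Submodule ℚ_[ℓ] (extK n K).V :=
  LinearMap.range (LinearMap.inl ℚ_[ℓ] ℚ_[ℓ] ℚ_[ℓ])

lemma mem_line {n : ℕ} {K : Kum ℓ} {v : ℚ_[ℓ] × ℚ_[ℓ]} : v ∈ line n K ↔ v.2 = 0 := by
  constructor
  · rintro ⟨x, rfl⟩
    rfl
  · intro h
    exact ⟨v.1, Prod.ext rfl h.symm⟩

/-- The steps of the filtration of the extension. -/
def extW (n : ℕ) (K : Kum ℓ) (m : ℤ) : Submodule ℚ_[ℓ] (extK n K).V :=
  if m < -(2 * ((n + 1 : ℕ) : ℤ)) then ⊥ else if m < -(2 * (n : ℤ)) then line n K else ⊤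

/-- The filtration of the extension. -/
def extFilt (n : ℕ) (K : Kum ℓ) : Filt (extK n K) where
  W := extW n K
  mono := by
    intro a b hab
    unfold extW
    split_ifs with h1 h2 h3 h4 h5 h6 <;> first
      | exact le_rfl
      | exact bot_le
      | exact le_top
      | omega
  stable m g v hv := by
    unfold extW at hv ⊢
    split_ifs at hv ⊢ with h1 h2
    · rw [Submodule.mem_bot] at hv ⊢
      rw [hv, map_zero]
    · have h3 : v.2 = 0 := mem_line.1 hv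
      apply mem_line.2
      rw [extK_apply, h3]
      exact mul_zero _
    · trivial
  bot := ⟨-(2 * ((n + 1 : ℕ) : ℤ)) - 1, if_pos (by omega)⟩
  top := ⟨-(2 * (n : ℤ)), by
    unfold extW
    rw [if_neg (by omega), if_neg (by omega)]⟩

lemma extK_mixed (n : ℕ) (K : Kum ℓ) : Mixed (extK n K) := by
  apply mixed_of (extFilt n K)
  intro m
  change extW n K m ≤ extW n K (m - 1) ∨ ∃ k : ℕ, m = -(2 * (k : ℤ)) ∧
    ∀ g, ∀ v ∈ extW n K m, (extK n K).ρ g v - chiQ ℓ g ^ k • v ∈ extW n K (m - 1)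
  by_cases h1 : m = -(2 * (n : ℤ))
  · right
    refine ⟨n, h1, fun g v _ => ?_⟩
    have e : extW n K (m - 1) = line n K := by
      unfold extW
      rw [if_neg (by omega), if_pos (by omega)]
    rw [e]
    apply mem_line.2
    change chiQ ℓ g ^ n * v.2 - chiQ ℓ g ^ n * v.2 = 0
    exact sub_self _
  by_cases h2 : m = -(2 * ((n + 1 : ℕ) : ℤ))
  · right
    refine ⟨n + 1, h2, fun g v hv => ?_⟩
    have e : extW n K m = line n K := by
      unfold extW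
      rw [if_neg (by omega), if_pos (by omega)]
    rw [e] at hv
    have h3 : v.2 = 0 := mem_line.1 hv
    have e2 : (extK n K).ρ g v - chiQ ℓ g ^ (n + 1) • v = 0 := by
      rw [extK_apply, h3]
      apply Prod.ext
      · change chiQ ℓ g ^ n * (chiQ ℓ g * v.1 + kapQ K g * 0) - chiQ ℓ g ^ (n + 1) * v.1 = 0
        ring
      · change chiQ ℓ g ^ n * 0 - chiQ ℓ g ^ (n + 1) * v.2 = 0
        rw [h3]
        ring
    rw [e2]
    exact zero_mem _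
  · left
    unfold extW
    split_ifs with h3 h4 h5 h6 h7 h8 <;> first
      | exact le_rfl
      | exact bot_le
      | exact le_top
      | omega

/-- The Kummer cocycle vanishes on the decomposition group. -/
def LocTrivial (K : Kum ℓ) : Prop := ∀ g : GLoc ℓ, K.kap (res ℓ g) = 0

lemma extK_potAdmissible (B : PeriodRing ℓ) (n : ℕ) {K : Kum ℓ} (hK : LocTrivial K) :
    PotAdmissible B (extK n K) := by
  refine potAdmissible_of B (extK n K) (d := 2)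
    (Module.Basis.finTwoProd ℚ_[ℓ] : Module.Basis (Fin 2) ℚ_[ℓ] (ℚ_[ℓ] × ℚ_[ℓ]))
    (fun i => if i = 0 then n + 1 else n) ?_
  intro g i
  have h0 : kapQ K (res ℓ g) = 0 := by
    unfold kapQ
    rw [hK g]
    simp
  fin_cases i
  · change (extK n K).ρ (res ℓ g) (Module.Basis.finTwoProd ℚ_[ℓ] 0) =
      chiQ ℓ (res ℓ g) ^ (n + 1) • (Module.Basis.finTwoProd ℚ_[ℓ] 0)
    rw [Module.Basis.finTwoProd_zero, extK_apply, h0]
    apply Prod.ext
    · change chiQ ℓ (res ℓ g) ^ n * (chiQ ℓ (res ℓ g) * 1 + 0 * 0) =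
        chiQ ℓ (res ℓ g) ^ (n + 1) * 1
      ring
    · change chiQ ℓ (res ℓ g) ^ n * 0 = chiQ ℓ (res ℓ g) ^ (n + 1) * 0
      ring
  · change (extK n K).ρ (res ℓ g) (Module.Basis.finTwoProd ℚ_[ℓ] 1) =
      chiQ ℓ (res ℓ g) ^ n • (Module.Basis.finTwoProd ℚ_[ℓ] 1)
    rw [Module.Basis.finTwoProd_one, extK_apply, h0]
    apply Prod.ext
    · change chiQ ℓ (res ℓ g) ^ n * (chiQ ℓ (res ℓ g) * 0 + 0 * 1) =
        chiQ ℓ (res ℓ g) ^ n * 0
      ring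
    · rfl

lemma extK_inC (B : PeriodRing ℓ) (n : ℕ) {K : Kum ℓ} (hK : LocTrivial K) : InC B (extK n K) :=
  ⟨extK_mixed n K, extK_potAdmissible B n hK⟩

/-- The product of the Kummer extensions. -/
def prodExt (B : PeriodRing ℓ) {K K' : Kum ℓ} (hK : LocTrivial K) (hK' : LocTrivial K') :
    TwoExt (InC B) (tw ℓ 0) (tw ℓ 2) where
  E₁ := extK 1 K'
  E₂ := extK 0 K
  mem₁ := extK_inC B 1 hK'
  mem₂ := extK_inC B 0 hK
  i :=
    { f := (LinearMap.inl ℚ_[ℓ] ℚ_[ℓ] ℚ_[ℓ] : ℚ_[ℓ] →ₗ[ℚ_[ℓ]] ℚ_[ℓ] × ℚ_[ℓ])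
      comm := fun g (v : ℚ_[ℓ]) => by
        apply Prod.ext
        · change chiQ ℓ g ^ 2 * v = chiQ ℓ g ^ 1 * (chiQ ℓ g * v + kapQ K' g * 0)
          ring
        · change (0 : ℚ_[ℓ]) = chiQ ℓ g ^ 1 * 0
          ring }
  d :=
    { f := ((LinearMap.inl ℚ_[ℓ] ℚ_[ℓ] ℚ_[ℓ]).comp (LinearMap.snd ℚ_[ℓ] ℚ_[ℓ] ℚ_[ℓ]) :
        ℚ_[ℓ] × ℚ_[ℓ] →ₗ[ℚ_[ℓ]] ℚ_[ℓ] × ℚ_[ℓ])
      comm := fun g v => by
        apply Prod.ext
        · change chiQ ℓ g ^ 1 * v.2 = chiQ ℓ g ^ 0 * (chiQ ℓ g * v.2 + kapQ K g * 0)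
          ring
        · change (0 : ℚ_[ℓ]) = chiQ ℓ g ^ 0 * 0
          ring }
  π :=
    { f := (LinearMap.snd ℚ_[ℓ] ℚ_[ℓ] ℚ_[ℓ] : ℚ_[ℓ] × ℚ_[ℓ] →ₗ[ℚ_[ℓ]] ℚ_[ℓ])
      comm := fun _ _ => rfl }
  inj := fun _ _ h => congrArg Prod.fst h
  ex₁ := by
    ext v
    constructor
    · rintro ⟨x, rfl⟩
      rfl
    · intro h
      have h1 : v.2 = 0 := congrArg Prod.fst h
      exact ⟨v.1, Prod.ext rfl h1.symm⟩
  ex₂ := by
    ext v
    constructor
    · rintro ⟨x, rfl⟩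
      rfl
    · intro h
      have h1 : v.2 = 0 := h
      exact ⟨(0, v.1), Prod.ext rfl h1.symm⟩
  surj := fun x => ⟨(0, x), rfl⟩

/-- The Kummer data given by sequences of primes; the Kummer cocycle vanishes on the decomposition
group. -/
lemma exists_kum {a p : ℕ → ℕ} (hp0 : ∀ i, p i ≠ 0) (a0 : a 0 = 1)
    (a1 : ∀ i, a (i + 1) = a i * p i ^ (ℓ ^ i))
    (ha : ∀ i, (ℓ : ℤ_[ℓ]) ^ (expB i + i) ∣ (a i : ℤ_[ℓ]) - 1)
    (hp : ∀ i, (ℓ : ℤ_[ℓ]) ^ (expB i) ∣ (p i : ℤ_[ℓ]) - 1) :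
    ∃ K : Kum ℓ, (∀ n, K.c n = p n) ∧ (∀ n, K.α n ^ ℓ ^ n = a n) ∧ LocTrivial K := by
  obtain ⟨y, hy0, hy1, hy2⟩ := exists_padic_roots a0 a1 ha hp
  have ha0 : ∀ n, a n ≠ 0 := by
    intro n
    induction n with
    | zero => rw [a0]; exact one_ne_zero
    | succ n ih =>
      rw [a1]
      exact mul_ne_zero ih (pow_ne_zero _ (hp0 n))
  -- lift to the algebraic closure of `ℚ`
  have hlift : ∀ n, ∃ α : Qb, emb ℓ α = algebraMap ℚ_[ℓ] (Lb ℓ) (y n : ℚ_[ℓ]) := by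
    intro n
    have hpos : 0 < ℓ ^ n := pow_pos hℓ.out.pos n
    obtain ⟨β, hβ⟩ := IsAlgClosed.exists_pow_nat_eq ((a n : ℕ) : Qb) hpos
    have hβ0 : β ≠ 0 := by
      rintro rfl
      rw [zero_pow hpos.ne'] at hβ
      exact ha0 n (by exact_mod_cast hβ.symm)
    have hy : (algebraMap ℚ_[ℓ] (Lb ℓ) (y n : ℚ_[ℓ])) ^ ℓ ^ n = ((a n : ℕ) : Lb ℓ) := by
      have h1 : ((y n : ℤ_[ℓ]) : ℚ_[ℓ]) ^ ℓ ^ n = ((a n : ℕ) : ℚ_[ℓ]) := by
        have := congrArg (fun z : ℤ_[ℓ] => (z : ℚ_[ℓ])) (hy1 n)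
        simpa using this
      rw [← map_pow, h1, map_natCast]
    have hω : (algebraMap ℚ_[ℓ] (Lb ℓ) (y n : ℚ_[ℓ]) / emb ℓ β) ^ ℓ ^ n = 1 := by
      rw [div_pow, hy, ← map_pow, hβ, map_natCast]
      exact div_self (by exact_mod_cast ha0 n)
    have hprim : IsPrimitiveRoot (emb ℓ (zeta ℓ n)) (ℓ ^ n) :=
      (zeta_prim ℓ n).map_of_injective (emb ℓ).injective
    have : NeZero (ℓ ^ n) := ⟨hpos.ne'⟩
    obtain ⟨k, -, hk⟩ := hprim.eq_pow_of_pow_eq_one hω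
    refine ⟨zeta ℓ n ^ k * β, ?_⟩
    rw [map_mul, map_pow, hk, div_mul_cancel₀ _ ((map_ne_zero _).2 hβ0)]
  choose α hα using hlift
  have hα0 : α 0 = 1 := by
    apply (emb ℓ).injective
    change emb ℓ (α 0) = emb ℓ 1
    rw [hα, hy0]
    simp
  have hα1 : ∀ n, α (n + 1) ^ ℓ = p n * α n := by
    intro n
    apply (emb ℓ).injective
    change emb ℓ (α (n + 1) ^ ℓ) = emb ℓ (p n * α n)
    rw [map_pow, map_mul, hα, hα, map_natCast, ← map_pow]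
    have h1 : ((y (n + 1) : ℤ_[ℓ]) : ℚ_[ℓ]) ^ ℓ = (p n : ℚ_[ℓ]) * (y n : ℚ_[ℓ]) := by
      have := congrArg (fun z : ℤ_[ℓ] => (z : ℚ_[ℓ])) (hy2 n)
      simpa using this
    rw [h1, map_mul, map_natCast]
  refine ⟨{ α := α, c := p, c_ne := hp0, α_zero := hα0, α_succ := hα1 }, fun _ => rfl, ?_, ?_⟩
  · intro n
    apply (emb ℓ).injective
    change emb ℓ (α n ^ ℓ ^ n) = emb ℓ ((a n : ℕ) : Qb)
    have h1 : ((y n : ℤ_[ℓ]) : ℚ_[ℓ]) ^ ℓ ^ n = ((a n : ℕ) : ℚ_[ℓ]) := by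
      have := congrArg (fun z : ℤ_[ℓ] => (z : ℚ_[ℓ])) (hy1 n)
      simpa using this
    rw [map_pow, hα, ← map_pow, h1, map_natCast, map_natCast]
  · intro g
    apply Kum.kap_eq
    intro n
    rw [ez_zero, one_mul]
    apply (emb ℓ).injective
    change emb ℓ (res ℓ g (α n)) = emb ℓ (α n)
    rw [emb_res, hα, AlgEquiv.commutes]

end Pool.Agent.V1143.CD
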