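import Mathlib

/-!
# A monoid of unipotent type
-/

set_option autoImplicit false

namespace Pool.Agent.V1143.CD

/-- The data of the matrix `(c², c kb, U; 0, c, X; 0, 0, 1)`, together with the entry `ka` of a matrix
`(c, ka; 0, 1)`. -/
@[ext] structure Hei (A : Type) [CommRing A] where
  c : A
  ka : A
  kb : A
  X : A
  U : A

namespace Hei

variable {A : Type} [CommRing A]

instance : One (Hei A) := ⟨⟨1, 0, 0, 0, 0⟩⟩

instance : Mul (Hei A) := ⟨fun g h => ⟨g.c * h.c, g.ka + g.c * h.ka, g.kb + g.c * h.kb,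
  g.X + g.c * h.X, g.U + g.c * (g.c * h.U + g.kb * h.X)⟩⟩

lemma one_c : (1 : Hei A).c = 1 := rfl
lemma one_ka : (1 : Hei A).ka = 0 := rfl
lemma one_kb : (1 : Hei A).kb = 0 := rfl
lemma one_X : (1 : Hei A).X = 0 := rfl
lemma one_U : (1 : Hei A).U = 0 := rfl
lemma mul_c (g h : Hei A) : (g * h).c = g.c * h.c := rfl
lemma mul_ka (g h : Hei A) : (g * h).ka = g.ka + g.c * h.ka := rfl
lemma mul_kb (g h : Hei A) : (g * h).kb = g.kb + g.c * h.kb := rfl
lemma mul_X (g h : Hei A) : (g * h).X = g.X + g.c * h.X := rfl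
lemma mul_U (g h : Hei A) : (g * h).U = g.U + g.c * (g.c * h.U + g.kb * h.X) := rfl

instance : Monoid (Hei A) where
  one_mul g := by
    ext <;> simp [one_c, one_ka, one_kb, one_X, one_U, mul_c, mul_ka, mul_kb, mul_X, mul_U]
  mul_one g := by
    ext <;> simp [one_c, one_ka, one_kb, one_X, one_U, mul_c, mul_ka, mul_kb, mul_X, mul_U]
  mul_assoc g h k := by
    ext <;> simp only [mul_c, mul_ka, mul_kb, mul_X, mul_U] <;> ring

lemma pow_c (g : Hei A) (n : ℕ) : (g ^ n).c = g.c ^ n := by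
  induction n with
  | zero => rw [pow_zero, pow_zero, one_c]
  | succ n ih => rw [pow_succ, mul_c, ih, pow_succ]

lemma pow_of_c {g : Hei A} (h : g.c = 1) (n : ℕ) :
    (g ^ n).ka = n * g.ka ∧ (g ^ n).kb = n * g.kb ∧ (g ^ n).X = n * g.X := by
  induction n with
  | zero => simp [one_ka, one_kb, one_X]
  | succ n ih =>
    obtain ⟨h1, h2, h3⟩ := ih
    refine ⟨?_, ?_, ?_⟩
    · rw [pow_succ, mul_ka, pow_c, h, h1]
      push_cast
      ring
    · rw [pow_succ, mul_kb, pow_c, h, h2]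
      push_cast
      ring
    · rw [pow_succ, mul_X, pow_c, h, h3]
      push_cast
      ring

lemma pow_U {g : Hei A} (h : g.c = 1) (h' : g.kb = 0) (n : ℕ) : (g ^ n).U = n * g.U := by
  induction n with
  | zero => simp [one_U]
  | succ n ih =>
    rw [pow_succ, mul_U, pow_c, h, ih, (pow_of_c h n).2.1, h']
    push_cast
    ring

lemma pow_eq_one {g : Hei A} {a N : ℕ} (ha : g.c ^ a = 1) (hN : (N : A) = 0) :
    g ^ (a * N * N) = 1 := by
  rw [pow_mul, pow_mul]
  have h1 : (g ^ a).c = 1 := by rw [pow_c, ha]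
  obtain ⟨h2, h3, h4⟩ := pow_of_c h1 N
  rw [hN, zero_mul] at h2 h3 h4
  have h5 : ((g ^ a) ^ N).c = 1 := by rw [pow_c, h1, one_pow]
  obtain ⟨h6, h7, h8⟩ := pow_of_c h5 N
  rw [hN, zero_mul] at h6 h7 h8
  ext
  · rw [pow_c, h5, one_pow, one_c]
  · rw [h6, one_ka]
  · rw [h7, one_kb]
  · rw [h8, one_X]
  · rw [pow_U h5 h3, hN, zero_mul, one_U]

/-- The relation `σ τ = τ ^ p σ` gives a relation for the entries. -/
lemma rel {g h : Hei A} {p : ℕ} (hp : IsUnit (p : A)) (hc : h.c = 1) (hk : h.kb = 0)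
    (gc : g.c = p) (h' : g * h = h ^ p * g) : g.kb * h.X = (1 - p) * h.U := by
  have h1 := congrArg Hei.U h'
  rw [mul_U, mul_U, pow_c, hc, pow_U hc hk, (pow_of_c hc p).2.1, hk, gc, one_pow] at h1
  apply hp.mul_left_cancel
  linear_combination h1

end Hei

end Pool.Agent.V1143.CD
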