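import Pool.Agent.V1143.CD.Rep

/-!
# An invariant of Yoneda extensions of length two

For an invariant vector `v` of `V` we consider the property that the cocycle `g ↦ g f - f`, with
`f ∈ E₂` above `v`, lifts to a continuous cocycle with values in `E₁`. It depends only on the element of
`Ext²` (it means that the image of `v` in the continuous cohomology group `H²(W)` vanishes).
-/

set_option autoImplicit false

namespace Pool.Agent.V1143.CD

variable {ℓ : ℕ} [hℓ : Fact ℓ.Prime] {C : Rep ℓ → Prop} {V W : Rep ℓ}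

/-- The cocycle given by `v` lifts. -/
def Lifts (ξ : TwoExt C V W) (v : V.V) : Prop :=
  ∃ (f : ξ.E₂.V) (e : GQ → ξ.E₁.V), ξ.π.f f = v ∧
    (∀ φ : Module.Dual ℚ_[ℓ] ξ.E₁.V, Continuous fun g => φ (e g)) ∧
    (∀ g h, e (g * h) = e g + ξ.E₁.ρ g (e h)) ∧ ∀ g, ξ.d.f (e g) = ξ.E₂.ρ g f - f

lemma Lifts.map {ξ ξ' : TwoExt C V W} (m : ξ.Map ξ') {v : V.V} (h : Lifts ξ v) : Lifts ξ' v := by
  obtain ⟨f, e, hf, hc, he, hd⟩ := h
  refine ⟨m.φ₂.f f, fun g => m.φ₁.f (e g), ?_, fun φ => hc (φ.comp m.φ₁.f), fun g h => ?_,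
    fun g => ?_⟩
  · rw [m.comm_π, hf]
  · change m.φ₁.f (e (g * h)) = m.φ₁.f (e g) + ξ'.E₁.ρ g (m.φ₁.f (e h))
    rw [he, map_add, m.φ₁.comm]
  · rw [← m.comm_d, hd, map_sub, m.φ₂.comm]

lemma Lifts.comap {ξ ξ' : TwoExt C V W} (m : ξ.Map ξ') {v : V.V} (hv : ∀ g, V.ρ g v = v)
    (h : Lifts ξ' v) : Lifts ξ v := by
  obtain ⟨f', e', hf', hc', he', hd'⟩ := h
  obtain ⟨f₀, hf₀⟩ := ξ.surj v
  obtain ⟨x', hx'⟩ : ∃ x', ξ'.d.f x' = m.φ₂.f f₀ - f' := by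
    have h1 : m.φ₂.f f₀ - f' ∈ LinearMap.ker ξ'.π.f := by
      rw [LinearMap.mem_ker, map_sub, m.comm_π, hf₀, hf', sub_self]
    rw [← ξ'.ex₂] at h1
    exact h1
  -- the corrected cocycle
  have hd'' : ∀ g, ξ'.d.f (e' g + (ξ'.E₁.ρ g x' - x')) = m.φ₂.f (ξ.E₂.ρ g f₀ - f₀) := by
    intro g
    rw [map_add, map_sub, ξ'.d.comm, hd', hx', map_sub, map_sub, m.φ₂.comm]
    abel
  have hex : ∀ g, ∃ x, ξ.d.f x = ξ.E₂.ρ g f₀ - f₀ ∧ m.φ₁.f x = e' g + (ξ'.E₁.ρ g x' - x') := by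
    intro g
    obtain ⟨x, hx⟩ : ∃ x, ξ.d.f x = ξ.E₂.ρ g f₀ - f₀ := by
      have h1 : ξ.E₂.ρ g f₀ - f₀ ∈ LinearMap.ker ξ.π.f := by
        rw [LinearMap.mem_ker, map_sub, ξ.π.comm, hf₀, hv, sub_self]
      rw [← ξ.ex₂] at h1
      exact h1
    obtain ⟨w, hw⟩ : ∃ w, ξ'.i.f w = m.φ₁.f x - (e' g + (ξ'.E₁.ρ g x' - x')) := by
      have h1 : m.φ₁.f x - (e' g + (ξ'.E₁.ρ g x' - x')) ∈ LinearMap.ker ξ'.d.f := by
        rw [LinearMap.mem_ker, map_sub, hd'', ← m.comm_d, hx, sub_self]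
      rw [← ξ'.ex₁] at h1
      exact h1
    refine ⟨x - ξ.i.f w, ?_, ?_⟩
    · have h2 : ξ.i.f w ∈ LinearMap.ker ξ.d.f := by
        rw [← ξ.ex₁]
        exact ⟨w, rfl⟩
      rw [map_sub, LinearMap.mem_ker.1 h2, sub_zero, hx]
    · rw [map_sub, m.comm_i, hw]
      abel
  choose e he1 he2 using hex
  -- injectivity
  have hinj : Function.Injective (ξ.d.f.prod m.φ₁.f) := by
    rw [← LinearMap.ker_eq_bot, LinearMap.ker_eq_bot']
    intro x hx
    have hx1 : ξ.d.f x = 0 := congrArg Prod.fst hx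
    have hx2 : m.φ₁.f x = 0 := congrArg Prod.snd hx
    have h1 : x ∈ LinearMap.range ξ.i.f := by
      rw [ξ.ex₁]
      exact hx1
    obtain ⟨w, rfl⟩ := h1
    have h2 := hx2
    rw [m.comm_i] at h2
    have h3 : w = 0 := by
      apply ξ'.inj
      rw [h2, map_zero]
    rw [h3, map_zero]
  obtain ⟨L, hL⟩ := LinearMap.exists_leftInverse_of_injective _ (LinearMap.ker_eq_bot.2 hinj)
  have heL : ∀ g, e g = L (ξ.E₂.ρ g f₀ - f₀, e' g + (ξ'.E₁.ρ g x' - x')) := by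
    intro g
    have h1 : L (ξ.d.f (e g), m.φ₁.f (e g)) = e g := LinearMap.congr_fun hL (e g)
    rw [he1, he2] at h1
    exact h1.symm
  refine ⟨f₀, e, hf₀, fun φ => ?_, fun g h => ?_, he1⟩
  · have h1 : ∀ g, φ (e g) = ((φ.comp L).comp (LinearMap.inl ℚ_[ℓ] _ _)) (ξ.E₂.ρ g f₀) -
        ((φ.comp L).comp (LinearMap.inl ℚ_[ℓ] _ _)) f₀ +
        (((φ.comp L).comp (LinearMap.inr ℚ_[ℓ] _ _)) (e' g) +
        (((φ.comp L).comp (LinearMap.inr ℚ_[ℓ] _ _)) (ξ'.E₁.ρ g x') -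
        ((φ.comp L).comp (LinearMap.inr ℚ_[ℓ] _ _)) x')) := by
      intro g
      rw [← map_sub, ← map_sub, ← map_add, LinearMap.comp_apply, LinearMap.comp_apply,
        LinearMap.comp_apply, LinearMap.comp_apply, ← map_add, ← map_add, heL]
      congr 2
      simp
    rw [show (fun g => φ (e g)) = _ from funext h1]
    exact ((ξ.E₂.cont f₀ _).sub continuous_const).add ((hc' _).add
      ((ξ'.E₁.cont x' _).sub continuous_const))
  · apply hinj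
    change (ξ.d.f (e (g * h)), m.φ₁.f (e (g * h))) =
      (ξ.d.f (e g + ξ.E₁.ρ g (e h)), m.φ₁.f (e g + ξ.E₁.ρ g (e h)))
    rw [Prod.mk.injEq]
    constructor
    · rw [he1, map_add, ξ.d.comm, he1, he1, map_sub, map_mul]
      simp
    · rw [he2, map_add, m.φ₁.comm, he2, he2, he', map_add, map_sub, map_mul]
      simp only [Module.End.mul_apply]
      abel

lemma lifts_iff_of_equiv {ξ ξ' : TwoExt C V W} (h : ξ.Equiv ξ') {v : V.V}
    (hv : ∀ g, V.ρ g v = v) : Lifts ξ v ↔ Lifts ξ' v := by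
  induction h with
  | rel _ _ h =>
    obtain ⟨m⟩ := h
    exact ⟨fun h => h.map m, fun h => h.comap m hv⟩
  | refl _ => exact Iff.rfl
  | symm _ _ _ ih => exact ih.symm
  | trans _ _ _ _ _ ih1 ih2 => exact ih1.trans ih2

lemma lifts_zero (hV : C V) (hW : C W) {v : V.V} (hv : ∀ g, V.ρ g v = v) :
    Lifts (TwoExt.zero hV hW) v := by
  refine ⟨v, fun _ => 0, rfl, fun φ => ?_, fun g h => ?_, fun g => ?_⟩
  · simp only [map_zero]
    exact continuous_const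
  · rw [map_zero, add_zero]
  · rw [map_zero]
    change (0 : V.V) = V.ρ g v - v
    rw [hv, sub_self]

end Pool.Agent.V1143.CD
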