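import Mathlib

/-!
# The cyclotomic character and Kummer cocycles
-/

set_option autoImplicit false

namespace Pool.Agent.V1143.CD

/-- The algebraic closure of `ℚ`. -/
abbrev Qb : Type := AlgebraicClosure ℚ

instance isAlgebraicQb : Algebra.IsAlgebraic ℚ Qb := by
  have h := AlgebraicClosure.isAlgebraic ℚ
  have e : (AlgebraicClosure.instAlgebra ℚ : Algebra ℚ Qb) = DivisionRing.toRatAlgebra :=
    Subsingleton.elim _ _
  rw [e] at h
  exact h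

instance isIntegralQb : Algebra.IsIntegral ℚ Qb := inferInstance

instance isAlgClosureQb : IsAlgClosure ℚ Qb := ⟨inferInstance, inferInstance⟩

instance normalQb : Normal ℚ Qb := IsAlgClosure.normal ℚ Qb

instance isGaloisQb : IsGalois ℚ Qb := ⟨⟩

/-- The absolute Galois group of `ℚ`. -/
abbrev GQ : Type := Gal(Qb/ℚ)

variable (ℓ : ℕ) [hℓ : Fact ℓ.Prime]

/-- The `ℓ`-adic cyclotomic character of the absolute Galois group of `ℚ`. -/
noncomputable def chi : GQ →* ℤ_[ℓ]ˣ :=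
  (cyclotomicCharacter Qb ℓ).comp (MulSemiringAction.toRingAut GQ Qb)

lemma continuous_chi : Continuous (chi ℓ) := cyclotomicCharacter.continuous ℓ ℚ Qb

local instance : NeZero ℓ := ⟨hℓ.out.ne_zero⟩

lemma chi_spec (g : GQ) {n : ℕ} {ω : Qb} (h : ω ^ ℓ ^ n = 1) :
    g ω = ω ^ ((chi ℓ g).val.toZModPow n).val := by
  have : ∀ i, HasEnoughRootsOfUnity Qb (ℓ ^ i) := fun i => inferInstance
  exact cyclotomicCharacter.spec ℓ (MulSemiringAction.toRingAut GQ Qb g) ω h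

/-- A compatible system of roots of unity of order a power of `ℓ`, beginning with one of
order `ℓ`. -/
noncomputable def zSeq : ℕ → Qb
  | 0 => (HasEnoughRootsOfUnity.exists_primitiveRoot Qb ℓ).choose
  | n + 1 => (IsAlgClosed.exists_pow_nat_eq (zSeq n) hℓ.out.pos).choose

lemma zSeq_succ (n : ℕ) : zSeq ℓ (n + 1) ^ ℓ = zSeq ℓ n :=
  (IsAlgClosed.exists_pow_nat_eq (zSeq ℓ n) hℓ.out.pos).choose_spec

lemma zSeq_prim (n : ℕ) : IsPrimitiveRoot (zSeq ℓ n) (ℓ ^ (n + 1)) := by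
  induction n with
  | zero =>
    rw [zero_add, pow_one]
    exact (HasEnoughRootsOfUnity.exists_primitiveRoot Qb ℓ).choose_spec
  | succ n ih =>
    have h1 : orderOf (zSeq ℓ (n + 1)) = ℓ ^ (n + 1 + 1) := by
      apply orderOf_eq_prime_pow
      · intro h
        rw [pow_succ', pow_mul, zSeq_succ] at h
        have h2 := ih.dvd_of_pow_eq_one _ h
        have h3 := Nat.le_of_dvd (pow_pos hℓ.out.pos _) h2
        exact absurd h3 (not_le.2 (Nat.pow_lt_pow_right hℓ.out.one_lt (Nat.lt_succ_self n)))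
      · rw [pow_succ', pow_mul, zSeq_succ, ih.pow_eq_one]
    rw [← h1]
    exact IsPrimitiveRoot.orderOf _

/-- The primitive roots of unity of order `ℓ ^ n`. -/
noncomputable def zeta : ℕ → Qb
  | 0 => 1
  | n + 1 => zSeq ℓ n

lemma zeta_succ (n : ℕ) : zeta ℓ (n + 1) ^ ℓ = zeta ℓ n := by
  cases n with
  | zero =>
    have := (zSeq_prim ℓ 0).pow_eq_one
    simpa [zeta] using this
  | succ n => exact zSeq_succ ℓ n

lemma zeta_prim (n : ℕ) : IsPrimitiveRoot (zeta ℓ n) (ℓ ^ n) := by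
  cases n with
  | zero => simp [zeta]
  | succ n => exact zSeq_prim ℓ n

lemma zeta_pow (n : ℕ) : zeta ℓ n ^ ℓ ^ n = 1 := (zeta_prim ℓ n).pow_eq_one

/-- `ζ_n ^ z` for `z ∈ ℤ_ℓ`. -/
noncomputable def ez (n : ℕ) (z : ℤ_[ℓ]) : Qb := zeta ℓ n ^ (z.toZModPow n).val

lemma prim_pow_iff {ω : Qb} {N : ℕ} (hN : N ≠ 0) (h : IsPrimitiveRoot ω N) (a b : ℕ) :
    ω ^ a = ω ^ b ↔ (a : ZMod N) = b := by
  rw [ZMod.natCast_eq_natCast_iff]
  constructor
  · intro hab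
    rw [pow_eq_pow_mod a h.pow_eq_one, pow_eq_pow_mod b h.pow_eq_one] at hab
    exact h.pow_inj (Nat.mod_lt _ (Nat.pos_of_ne_zero hN)) (Nat.mod_lt _ (Nat.pos_of_ne_zero hN)) hab
  · intro hab
    rw [pow_eq_pow_mod a h.pow_eq_one, pow_eq_pow_mod b h.pow_eq_one, hab]

lemma zeta_pow_congr {n a b : ℕ} (h : (a : ZMod (ℓ ^ n)) = b) : zeta ℓ n ^ a = zeta ℓ n ^ b := by
  exact (prim_pow_iff (pow_ne_zero _ hℓ.out.ne_zero) (zeta_prim ℓ n) a b).2 h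

lemma ez_natCast (n a : ℕ) : ez ℓ n a = zeta ℓ n ^ a := by
  unfold ez
  apply zeta_pow_congr
  rw [ZMod.natCast_zmod_val, map_natCast]

lemma ez_add (n : ℕ) (z w : ℤ_[ℓ]) : ez ℓ n (z + w) = ez ℓ n z * ez ℓ n w := by
  unfold ez
  rw [← pow_add]
  apply zeta_pow_congr
  push_cast
  rw [ZMod.natCast_zmod_val, ZMod.natCast_zmod_val, ZMod.natCast_zmod_val, map_add]

lemma ez_mul (n : ℕ) (z w : ℤ_[ℓ]) : ez ℓ n (z * w) = ez ℓ n z ^ (w.toZModPow n).val := by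
  unfold ez
  rw [← pow_mul]
  apply zeta_pow_congr
  push_cast
  rw [ZMod.natCast_zmod_val, ZMod.natCast_zmod_val, ZMod.natCast_zmod_val, map_mul]

lemma ez_zero (n : ℕ) : ez ℓ n 0 = 1 := by
  unfold ez
  simp

lemma ez_pow_eq_one (n : ℕ) (z : ℤ_[ℓ]) : ez ℓ n z ^ ℓ ^ n = 1 := by
  unfold ez
  rw [← pow_mul, mul_comm, pow_mul, zeta_pow, one_pow]

lemma ez_ne_zero (n : ℕ) (z : ℤ_[ℓ]) : ez ℓ n z ≠ 0 :=
  pow_ne_zero _ ((zeta_prim ℓ n).ne_zero (pow_ne_zero _ hℓ.out.ne_zero))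

/-- `ζ_n ^ z` determines `z` modulo `ℓ ^ n`. -/
lemma ez_eq_iff (n : ℕ) (z w : ℤ_[ℓ]) : ez ℓ n z = ez ℓ n w ↔ z.toZModPow n = w.toZModPow n := by
  unfold ez
  rw [prim_pow_iff (pow_ne_zero _ hℓ.out.ne_zero) (zeta_prim ℓ n), ZMod.natCast_zmod_val,
    ZMod.natCast_zmod_val]

lemma toZModPow_eq_iff (n : ℕ) (z w : ℤ_[ℓ]) :
    z.toZModPow n = w.toZModPow n ↔ (ℓ : ℤ_[ℓ]) ^ n ∣ z - w := by
  rw [← sub_eq_zero, ← map_sub, ← RingHom.mem_ker, PadicInt.ker_toZModPow,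
    Ideal.mem_span_singleton]

lemma ez_eq_one_iff (n : ℕ) (z : ℤ_[ℓ]) : ez ℓ n z = 1 ↔ (ℓ : ℤ_[ℓ]) ^ n ∣ z := by
  rw [← ez_zero ℓ n, ez_eq_iff, toZModPow_eq_iff, sub_zero]

lemma ez_ext {z w : ℤ_[ℓ]} (h : ∀ n, ez ℓ n z = ez ℓ n w) : z = w :=
  PadicInt.ext_of_toZModPow.1 fun n => (ez_eq_iff ℓ n z w).1 (h n)

lemma smul_ez (g : GQ) (n : ℕ) (z : ℤ_[ℓ]) : g (ez ℓ n z) = ez ℓ n (chi ℓ g * z) := by
  rw [chi_spec ℓ g (ez_pow_eq_one ℓ n z), mul_comm, ez_mul]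

/-- Compatible systems of roots of unity are given by `ℓ`-adic integers. -/
lemma exists_ez (ω : ℕ → Qb) (h0 : ω 0 = 1) (h : ∀ n, ω (n + 1) ^ ℓ = ω n) :
    ∃ z : ℤ_[ℓ], ∀ n, ω n = ez ℓ n z := by
  have h1 : ∀ n, ω n ^ ℓ ^ n = 1 := by
    intro n
    induction n with
    | zero => rw [pow_zero, pow_one, h0]
    | succ n ih => rw [pow_succ', pow_mul, h, ih]
  have h2 : ∀ n, ∃ i, zeta ℓ n ^ i = ω n := by
    intro n
    obtain ⟨i, -, hi⟩ := (zeta_prim ℓ n).eq_pow_of_pow_eq_one (h1 n)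
    exact ⟨i, hi⟩
  choose k hk using h2
  have h3 : ∀ n, (ℓ : ℤ_[ℓ]) ^ n ∣ (k (n + 1) : ℤ_[ℓ]) - k n := by
    intro n
    rw [← toZModPow_eq_iff, ← ez_eq_iff, ez_natCast, ez_natCast, hk, ← h, ← hk (n + 1), ← pow_mul,
      mul_comm, pow_mul, zeta_succ]
  have h4 : ∀ m n, m ≤ n → (ℓ : ℤ_[ℓ]) ^ m ∣ (k m : ℤ_[ℓ]) - k n := by
    intro m n hmn
    induction hmn with
    | refl => simp
    | @step n' hmn' ih =>
      have e : (k m : ℤ_[ℓ]) - k (n' + 1) = ((k m : ℤ_[ℓ]) - k n') - (k (n' + 1) - k n') := by ring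
      change (ℓ : ℤ_[ℓ]) ^ m ∣ (k m : ℤ_[ℓ]) - k (n' + 1)
      rw [e]
      exact dvd_sub ih ((pow_dvd_pow _ hmn').trans (h3 n'))
  obtain ⟨L, hL⟩ := (inferInstance : IsPrecomplete (IsLocalRing.maximalIdeal ℤ_[ℓ]) ℤ_[ℓ]).prec
    (f := fun n => (k n : ℤ_[ℓ])) (by
      intro m n hmn
      rw [SModEq.sub_mem, smul_eq_mul, Ideal.mul_top, PadicInt.maximalIdeal_eq_span_p,
        Ideal.span_singleton_pow, Ideal.mem_span_singleton]
      exact h4 m n hmn)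
  refine ⟨L, fun n => ?_⟩
  have h5 := hL n
  rw [SModEq.sub_mem, smul_eq_mul, Ideal.mul_top, PadicInt.maximalIdeal_eq_span_p,
    Ideal.span_singleton_pow, Ideal.mem_span_singleton] at h5
  rw [← hk n, ← ez_natCast, ez_eq_iff, toZModPow_eq_iff]
  exact h5

/-- A compatible system of roots `α n` of order `ℓ ^ n` of positive integers, given by
`α (n + 1) ^ ℓ = c n * α n`. -/
structure Kum where
  α : ℕ → Qb
  c : ℕ → ℕ
  c_ne : ∀ n, c n ≠ 0
  α_zero : α 0 = 1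
  α_succ : ∀ n, α (n + 1) ^ ℓ = c n * α n

namespace Kum

variable {ℓ} (K : Kum ℓ)

lemma α_ne (n : ℕ) : K.α n ≠ 0 := by
  induction n with
  | zero => rw [K.α_zero]; exact one_ne_zero
  | succ n ih =>
    intro h
    have h1 := K.α_succ n
    rw [h, zero_pow hℓ.out.ne_zero] at h1
    exact mul_ne_zero (by exact_mod_cast K.c_ne n) ih h1.symm

lemma exists_kap (g : GQ) : ∃ z : ℤ_[ℓ], ∀ n, g (K.α n) = ez ℓ n z * K.α n := by
  obtain ⟨z, hz⟩ := exists_ez ℓ (fun n => g (K.α n) / K.α n)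
    (by rw [K.α_zero, map_one, div_one])
    (fun n => by
      rw [div_pow, ← map_pow, K.α_succ, map_mul, map_natCast,
        mul_div_mul_left _ _ (by exact_mod_cast K.c_ne n)])
  refine ⟨z, fun n => ?_⟩
  rw [← hz n, div_mul_cancel₀ _ (K.α_ne n)]

/-- The Kummer cocycle. -/
noncomputable def kap (g : GQ) : ℤ_[ℓ] := (K.exists_kap g).choose

lemma smul_α (g : GQ) (n : ℕ) : g (K.α n) = ez ℓ n (K.kap g) * K.α n :=
  (K.exists_kap g).choose_spec n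

lemma kap_eq {g : GQ} {z : ℤ_[ℓ]} (h : ∀ n, g (K.α n) = ez ℓ n z * K.α n) : K.kap g = z := by
  apply ez_ext ℓ
  intro n
  have h1 := K.smul_α g n
  rw [h n] at h1
  exact (mul_right_cancel₀ (K.α_ne n) h1).symm

lemma kap_mul (g h : GQ) : K.kap (g * h) = K.kap g + chi ℓ g * K.kap h := by
  apply K.kap_eq
  intro n
  rw [AlgEquiv.mul_apply, K.smul_α h, map_mul, K.smul_α g, smul_ez, add_comm, ez_add]
  ring

lemma kap_one : K.kap 1 = 0 := by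
  apply K.kap_eq
  intro n
  rw [ez_zero, one_mul]
  rfl

lemma dvd_kap_iff (g : GQ) (n : ℕ) : (ℓ : ℤ_[ℓ]) ^ n ∣ K.kap g ↔ g (K.α n) = K.α n := by
  rw [K.smul_α, ← ez_eq_one_iff]
  constructor
  · intro h
    rw [h, one_mul]
  · intro h
    exact mul_right_cancel₀ (K.α_ne n) (h.trans (one_mul _).symm)

lemma continuous_kap : Continuous K.kap := by
  rw [continuous_iff_continuousAt]
  intro g₀
  rw [ContinuousAt, Metric.tendsto_nhds]
  intro ε hε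
  obtain ⟨n, hn⟩ := PadicInt.exists_pow_neg_lt ℓ hε
  have hopen : IsOpen {g : GQ | g₀⁻¹ * g ∈ MulAction.stabilizer GQ (K.α n)} :=
    (stabilizer_isOpen_of_isIntegral (K := ℚ) (K.α n)).preimage (continuous_const_mul g₀⁻¹)
  have hmem : g₀ ∈ {g : GQ | g₀⁻¹ * g ∈ MulAction.stabilizer GQ (K.α n)} := by
    rw [Set.mem_ofPred_eq, inv_mul_cancel]
    exact one_mem _
  filter_upwards [hopen.mem_nhds hmem] with g hg
  have h1 : (ℓ : ℤ_[ℓ]) ^ n ∣ K.kap (g₀⁻¹ * g) := (K.dvd_kap_iff _ n).2 hg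
  have h2 : K.kap g = K.kap g₀ + chi ℓ g₀ * K.kap (g₀⁻¹ * g) := by
    rw [← kap_mul, mul_inv_cancel_left]
  have h3 : (ℓ : ℤ_[ℓ]) ^ n ∣ K.kap g - K.kap g₀ := by
    rw [h2, add_sub_cancel_left]
    exact Dvd.dvd.mul_left h1 _
  refine lt_of_le_of_lt ?_ hn
  rw [dist_eq_norm, PadicInt.norm_le_pow_iff_mem_span_pow, Ideal.mem_span_singleton]
  exact h3

end Kum

end Pool.Agent.V1143.CD
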