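import Pool.Agent.V1143.CD.Invariant

/-!
# The objects: Tate twists and extensions given by Kummer cocycles
-/

set_option autoImplicit false

noncomputable section

namespace Pool.Agent.V1143.CD

open NumberField TensorProduct

/-- Roots of unity of order prime to `p` are determined by their residues. -/
lemma root_eq_one {R : Type*} [CommRing R] [IsDomain R] {P : Ideal R} (hP : P ≠ ⊤) {p ℓ : ℕ}
    (hpℓ : Nat.Coprime p ℓ) (hp : (p : R) ∈ P) (n : ℕ) :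
    ∀ ω : R, ω ^ ℓ ^ n = 1 → ω - 1 ∈ P → ω = 1 := by
  induction n with
  | zero =>
    intro ω h _
    simpa using h
  | succ n ih =>
    intro ω h1 h2
    have h3 : ω ^ ℓ = 1 := by
      apply ih
      · rw [← pow_mul, ← pow_succ', h1]
      · have h := sub_dvd_pow_sub_pow ω 1 ℓ
        rw [one_pow] at h
        exact Ideal.mem_of_dvd P h h2
    by_contra hne
    have h4 : ∑ i ∈ Finset.range ℓ, ω ^ i = 0 := by
      have := mul_geom_sum ω ℓ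
      rw [h3, sub_self] at this
      exact (mul_eq_zero.1 this).resolve_left (sub_ne_zero.2 hne)
    have h5 : (ℓ : R) ∈ P := by
      have h6 : ∑ i ∈ Finset.range ℓ, (ω ^ i - 1) ∈ P := by
        apply Ideal.sum_mem
        intro i _
        have h := sub_dvd_pow_sub_pow ω 1 i
        rw [one_pow] at h
        exact Ideal.mem_of_dvd P h h2
      rw [Finset.sum_sub_distrib, h4, zero_sub] at h6
      simpa using h6
    apply hP
    rw [Ideal.eq_top_iff_one]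
    have hb := Nat.gcd_eq_gcd_ab p ℓ
    rw [hpℓ.gcd_eq_one] at hb
    have hb' : (1 : R) = (p : R) * (Nat.gcdA p ℓ : R) + (ℓ : R) * (Nat.gcdB p ℓ : R) := by
      have := congrArg (Int.cast : ℤ → R) hb
      push_cast at this
      exact this
    rw [hb']
    exact Ideal.add_mem _ (Ideal.mul_mem_right _ _ hp) (Ideal.mul_mem_right _ _ h5)

lemma root_eq {R : Type*} [CommRing R] [IsDomain R] {P : Ideal R} (hP : P ≠ ⊤) {p ℓ : ℕ}
    (hℓ : 0 < ℓ) (hpℓ : Nat.Coprime p ℓ) (hp : (p : R) ∈ P) {n : ℕ} {x y : R}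
    (hx : x ^ ℓ ^ n = 1) (hy : y ^ ℓ ^ n = 1) (h : x - y ∈ P) : x = y := by
  have hN : ℓ ^ n - 1 + 1 = ℓ ^ n := Nat.sub_add_cancel (pow_pos hℓ n)
  have h1 : x * y ^ (ℓ ^ n - 1) = 1 := by
    apply root_eq_one hP hpℓ hp n
    · have h2 : (y ^ (ℓ ^ n - 1)) ^ ℓ ^ n = 1 := by
        rw [← pow_mul, mul_comm, pow_mul, hy, one_pow]
      rw [mul_pow, hx, h2, one_mul]
    · have e : x * y ^ (ℓ ^ n - 1) - 1 = (x - y) * y ^ (ℓ ^ n - 1) := by
        rw [sub_mul, ← pow_succ', hN, hy]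
      rw [e]
      exact Ideal.mul_mem_right _ _ h
  calc x = x * (y ^ (ℓ ^ n - 1) * y) := by rw [← pow_succ, hN, hy, mul_one]
    _ = (x * y ^ (ℓ ^ n - 1)) * y := by ring
    _ = y := by rw [h1, one_mul]

variable (ℓ : ℕ) [hℓ : Fact ℓ.Prime]

/-- `ζ_n` as an algebraic integer. -/
def zetaO (n : ℕ) : 𝓞 Qb :=
  ⟨zeta ℓ n, (zeta_prim ℓ n).isIntegral (pow_pos hℓ.out.pos n)⟩

lemma zetaO_pow (n : ℕ) : zetaO ℓ n ^ ℓ ^ n = 1 := by
  apply RingOfIntegers.ext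
  exact zeta_pow ℓ n

lemma coe_smul (g : GQ) (x : 𝓞 Qb) : ((g • x : 𝓞 Qb) : Qb) = g (x : Qb) := rfl

variable {ℓ} {p : ℕ}

lemma chi_inertia (hp : p.Prime) (hpℓ : p ≠ ℓ) {P : Ideal (𝓞 Qb)} (hP : P.IsMaximal)
    (hpP : (p : 𝓞 Qb) ∈ P) {g : GQ} (hg : ∀ x : 𝓞 Qb, g • x - x ∈ P) : chi ℓ g = 1 := by
  apply Units.ext
  apply ez_ext ℓ
  intro n
  have h1 : g • zetaO ℓ n = zetaO ℓ n := by
    refine root_eq hP.ne_top hℓ.out.pos ((Nat.coprime_primes hp hℓ.out).2 hpℓ) hpP ?_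
      (zetaO_pow ℓ n) (hg _)
    rw [← smul_pow', zetaO_pow, smul_one]
  have h2 : g (zeta ℓ n) = zeta ℓ n := congrArg (fun x : 𝓞 Qb => (x : Qb)) h1
  have h3 := smul_ez ℓ g n 1
  have h4 : ez ℓ n (1 : ℤ_[ℓ]) = zeta ℓ n := by
    have := ez_natCast ℓ n 1
    rwa [Nat.cast_one, pow_one] at this
  rw [mul_one, h4, h2] at h3
  rw [← h3, Units.val_one, h4]

lemma chi_frob (hp : p.Prime) (hpℓ : p ≠ ℓ) {P : Ideal (𝓞 Qb)} (hP : P.IsMaximal)
    (hpP : (p : 𝓞 Qb) ∈ P) {g : GQ} (hg : IsFrob p P g) : (chi ℓ g : ℤ_[ℓ]) = p := by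
  apply ez_ext ℓ
  intro n
  have h1 : g • zetaO ℓ n = zetaO ℓ n ^ p := by
    refine root_eq hP.ne_top hℓ.out.pos ((Nat.coprime_primes hp hℓ.out).2 hpℓ) hpP (n := n) ?_
      ?_ (hg _)
    · rw [← smul_pow', zetaO_pow, smul_one]
    · rw [← pow_mul, mul_comm, pow_mul, zetaO_pow, one_pow]
  have h2 : g (zeta ℓ n) = zeta ℓ n ^ p := congrArg (fun x : 𝓞 Qb => (x : Qb)) h1
  have h3 := smul_ez ℓ g n 1
  have h4 : ez ℓ n (1 : ℤ_[ℓ]) = zeta ℓ n := by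
    have := ez_natCast ℓ n 1
    rwa [Nat.cast_one, pow_one] at this
  rw [mul_one, h4, h2] at h3
  rw [← h3, ez_natCast]

variable (ℓ) in
/-- The cyclotomic character with values in `ℚ_ℓ`. -/
def chiQ (g : GQ) : ℚ_[ℓ] := ((chi ℓ g : ℤ_[ℓ]) : ℚ_[ℓ])

lemma chiQ_mul (g h : GQ) : chiQ ℓ (g * h) = chiQ ℓ g * chiQ ℓ h := by
  unfold chiQ
  rw [map_mul]
  push_cast
  rfl

lemma chiQ_one : chiQ ℓ 1 = 1 := by
  unfold chiQ
  rw [map_one]
  simp

lemma chiQ_ne_zero (g : GQ) : chiQ ℓ g ≠ 0 := by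
  intro h
  have h1 := chiQ_mul (ℓ := ℓ) g g⁻¹
  rw [mul_inv_cancel, chiQ_one, h, zero_mul] at h1
  exact one_ne_zero h1

lemma continuous_coe : Continuous (fun z : ℤ_[ℓ] => (z : ℚ_[ℓ])) := continuous_subtype_val

lemma continuous_chiQ : Continuous (chiQ ℓ) :=
  continuous_coe.comp (Units.continuous_val.comp (continuous_chi ℓ))

lemma charpoly_root {M : Type*} [AddCommGroup M] [Module ℚ_[ℓ] M] [Module.Finite ℚ_[ℓ] M]
    {c : ℚ_[ℓ]} {f : Module.End ℚ_[ℓ] M} (hf : ∀ v, f v = c • v) {z : AlgebraicClosure ℚ_[ℓ]}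
    (hz : Polynomial.aeval z f.charpoly = 0) : z = algebraMap ℚ_[ℓ] _ c := by
  classical
  let b := Module.Free.chooseBasis ℚ_[ℓ] M
  have h1 : LinearMap.toMatrix b b f = Matrix.diagonal fun _ => c := by
    ext i j
    rw [LinearMap.toMatrix_apply, hf, map_smul, Module.Basis.repr_self, Finsupp.smul_apply,
      Finsupp.single_apply, Matrix.diagonal_apply]
    by_cases hij : i = j
    · subst hij
      simp
    · simp [hij, Ne.symm hij]
  rw [LinearMap.charpoly_def, h1, Matrix.charpoly_diagonal, Finset.prod_const, map_pow, map_sub,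
    Polynomial.aeval_X, Polynomial.aeval_C] at hz
  exact sub_eq_zero.1 (eq_zero_of_pow_eq_zero hz)

lemma pure_of_scalar {M : Type} [AddCommGroup M] [Module ℚ_[ℓ] M] [Module.Finite ℚ_[ℓ] M]
    (f : GQ → Module.End ℚ_[ℓ] M) (k : ℕ) (h : ∀ g v, f g v = chiQ ℓ g ^ k • v) :
    Pure f (-(2 * (k : ℤ))) := by
  refine ⟨ℓ, hℓ.out.ne_zero, dvd_rfl, fun p hp hpℓ' => ?_⟩
  have hpℓ : p ≠ ℓ := by
    rintro rfl
    exact hpℓ' dvd_rfl
  refine ⟨fun P hP hpP g hg => ?_, fun P hP hpP g hg z hz => ?_⟩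
  · ext v
    have h1 : chiQ ℓ g = 1 := by
      unfold chiQ
      rw [chi_inertia hp hpℓ hP hpP hg]
      simp
    rw [h, h1, one_pow, one_smul]
    rfl
  · have h1 : chiQ ℓ g = p := by
      unfold chiQ
      rw [chi_frob hp hpℓ hP hpP hg]
      simp
    have h2 : chiQ ℓ g⁻¹ = (p : ℚ_[ℓ])⁻¹ := by
      have h3 := chiQ_mul (ℓ := ℓ) g g⁻¹
      rw [mul_inv_cancel, chiQ_one, h1] at h3
      exact (eq_inv_of_mul_eq_one_right h3.symm)
    have h3 := charpoly_root (h g⁻¹) hz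
    rw [h2] at h3
    have h4 : z = algebraMap ℚ (AlgebraicClosure ℚ_[ℓ]) (((p : ℚ)⁻¹) ^ k) := by
      rw [h3]
      simp
    refine ⟨h4 ▸ isAlgebraic_algebraMap _, fun w hw => ?_⟩
    rw [h4, minpoly.eq_X_sub_C, map_sub, Polynomial.aeval_X, Polynomial.aeval_C, sub_eq_zero] at hw
    rw [hw]
    have h5 : algebraMap ℚ ℂ (((p : ℚ)⁻¹) ^ k) = (((p : ℝ)⁻¹ ^ k : ℝ) : ℂ) := by
      push_cast
      simp
    rw [h5, Complex.norm_real, Real.norm_of_nonneg (by positivity)]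
    have h6 : ((-(2 * (k : ℤ)) : ℤ) : ℝ) / 2 = -(k : ℝ) := by
      push_cast
      ring
    rw [h6, Real.rpow_neg (by positivity), Real.rpow_natCast, inv_pow]

lemma pure_of_subsingleton {M : Type} [AddCommGroup M] [Module ℚ_[ℓ] M] [Module.Finite ℚ_[ℓ] M]
    (f : GQ → Module.End ℚ_[ℓ] M) (hM : Subsingleton M) (m : ℤ) : Pure f m := by
  refine ⟨ℓ, hℓ.out.ne_zero, dvd_rfl, fun p _ _ => ⟨fun P _ _ g _ => ?_, fun P _ _ g _ z hz => ?_⟩⟩
  · ext v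
    exact Subsingleton.elim _ _
  · exfalso
    have h1 : (f g⁻¹).charpoly = 1 := by
      apply (LinearMap.charpoly_monic _).natDegree_eq_zero.1
      rw [LinearMap.charpoly_natDegree]
      exact Module.finrank_zero_of_subsingleton
    rw [h1, map_one] at hz
    exact one_ne_zero hz

/-- The class in the graded piece. -/
def grMk {V : Rep ℓ} (F : Filt V) (m : ℤ) (v : F.W m) :
    F.W m ⧸ (F.W (m - 1)).submoduleOf (F.W m) :=
  Submodule.Quotient.mk (p := (F.W (m - 1)).submoduleOf (F.W m)) v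

lemma grMk_surjective {V : Rep ℓ} (F : Filt V) (m : ℤ) : Function.Surjective (grMk F m) :=
  Submodule.Quotient.mk_surjective ((F.W (m - 1)).submoduleOf (F.W m))

lemma grMk_eq {V : Rep ℓ} (F : Filt V) (m : ℤ) (v w : F.W m) (h : v.1 - w.1 ∈ F.W (m - 1)) :
    grMk F m v = grMk F m w :=
  (Submodule.Quotient.eq ((F.W (m - 1)).submoduleOf (F.W m))).2 h

lemma gr_apply {V : Rep ℓ} (F : Filt V) (m : ℤ) (g : GQ) (v : F.W m) :
    F.act m g (grMk F m v) = grMk F m ⟨V.ρ g v.1, F.stable m g v.1 v.2⟩ := rfl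

lemma smul_grMk {V : Rep ℓ} (F : Filt V) (m : ℤ) (c : ℚ_[ℓ]) (v : F.W m) :
    c • grMk F m v = grMk F m (c • v) := rfl

/-- A criterion for mixed representations. -/
lemma mixed_of {V : Rep ℓ} (F : Filt V)
    (h : ∀ m, F.W m ≤ F.W (m - 1) ∨
      ∃ k : ℕ, m = -(2 * (k : ℤ)) ∧
        ∀ g, ∀ v ∈ F.W m, V.ρ g v - chiQ ℓ g ^ k • v ∈ F.W (m - 1)) :
    Mixed V := by
  refine ⟨F, fun m => ?_⟩
  rcases h m with h1 | ⟨k, rfl, h1⟩
  · apply pure_of_subsingleton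
    constructor
    intro a b
    obtain ⟨a, rfl⟩ := grMk_surjective F m a
    obtain ⟨b, rfl⟩ := grMk_surjective F m b
    exact grMk_eq F m a b (h1 (a - b).2)
  · apply pure_of_scalar
    intro g v
    obtain ⟨v, rfl⟩ := grMk_surjective F _ v
    rw [gr_apply, smul_grMk]
    exact grMk_eq F _ _ _ (h1 g v.1 v.2)

/-- A criterion for potential admissibility. -/
lemma potAdmissible_of (B : PeriodRing ℓ) (V : Rep ℓ) {d : ℕ} (b : Module.Basis (Fin d) ℚ_[ℓ] V.V)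
    (k : Fin d → ℕ) (h : ∀ g i, V.ρ (res ℓ g) (b i) = chiQ ℓ (res ℓ g) ^ k i • b i) :
    PotAdmissible B V := by
  have hfin : FiniteDimensional ℚ_[ℓ] (⊥ : IntermediateField ℚ_[ℓ] (Lb ℓ)) := inferInstance
  refine ⟨⊥, hfin, d, (b.baseChange B.B).unitsSMul fun i => (B.t⁻¹) ^ k i,
    fun g _ i => ?_⟩
  change TensorProduct.map (B.σ g).toLinearMap (V.ρ (res ℓ g))
    (((b.baseChange B.B).unitsSMul fun i => (B.t⁻¹) ^ k i) i) =
      ((b.baseChange B.B).unitsSMul fun i => (B.t⁻¹) ^ k i) i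
  have h1 : (((b.baseChange B.B).unitsSMul fun i => (B.t⁻¹) ^ k i) i : B.B ⊗[ℚ_[ℓ]] V.V) =
      (((B.t⁻¹ ^ k i : B.Bˣ)) : B.B) ⊗ₜ[ℚ_[ℓ]] b i := by
    rw [Module.Basis.unitsSMul_apply, Module.Basis.baseChange_apply, Units.smul_def,
      TensorProduct.smul_tmul', smul_eq_mul, mul_one]
  rw [h1, TensorProduct.map_tmul, h]
  set c := chiQ ℓ (res ℓ g) with hc
  have hc0 : c ≠ 0 := chiQ_ne_zero _
  have h2 : (B.σ g) ((B.t⁻¹ : B.Bˣ) : B.B) = algebraMap ℚ_[ℓ] B.B c⁻¹ * ((B.t⁻¹ : B.Bˣ) : B.B) := by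
    have h3 : (B.σ g) (B.t : B.B) = algebraMap ℚ_[ℓ] B.B c * B.t := B.ht g
    have h4 : (B.σ g) ((B.t⁻¹ : B.Bˣ) : B.B) * (B.σ g) (B.t : B.B) = 1 := by
      rw [← map_mul, Units.inv_mul, map_one]
    have h5 : (algebraMap ℚ_[ℓ] B.B c⁻¹ * ((B.t⁻¹ : B.Bˣ) : B.B)) * (B.σ g) (B.t : B.B) = 1 := by
      rw [h3]
      calc (algebraMap ℚ_[ℓ] B.B c⁻¹ * ((B.t⁻¹ : B.Bˣ) : B.B)) *
            (algebraMap ℚ_[ℓ] B.B c * B.t)
          = (algebraMap ℚ_[ℓ] B.B c⁻¹ * algebraMap ℚ_[ℓ] B.B c) *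
            (((B.t⁻¹ : B.Bˣ) : B.B) * B.t) := by ring
        _ = 1 := by rw [Units.inv_mul, ← map_mul, inv_mul_cancel₀ hc0, map_one, one_mul]
    have h6 : IsUnit ((B.σ g) (B.t : B.B)) := B.t.isUnit.map (B.σ g)
    exact h6.mul_right_cancel (h4.trans h5.symm)
  have h3 : (B.σ g) (((B.t⁻¹ ^ k i : B.Bˣ)) : B.B) =
      algebraMap ℚ_[ℓ] B.B (c⁻¹ ^ k i) * (((B.t⁻¹ ^ k i : B.Bˣ)) : B.B) := by
    rw [Units.val_pow_eq_pow_val, map_pow, h2, mul_pow, map_pow]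
  change (B.σ g) (((B.t⁻¹ ^ k i : B.Bˣ)) : B.B) ⊗ₜ[ℚ_[ℓ]] (c ^ k i • b i) = _
  rw [h3, ← TensorProduct.smul_tmul, ← Algebra.smul_def, smul_smul, ← mul_pow,
    mul_inv_cancel₀ hc0, one_pow, one_smul]

end Pool.Agent.V1143.CD
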