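import Pool.Agent.V1143.CD.Ram
import Pool.Agent.V1143.CD.Objects

/-!
# Frobenius and inertia elements with the tame relation

Let `H` be an open normal subgroup of the absolute Galois group of `ℚ` such that the quotient has
exponent prime to `p`. We produce elements `σ` and `τ` of the absolute Galois group which act as a
Frobenius element and as an inertia element above `p` on the elements fixed by `H`, with
`σ τ = τ ^ p σ` modulo `H`, and such that `τ` moves a given ramified element.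
-/

set_option autoImplicit false

namespace Pool.Agent.V1143.CD

open NumberField

lemma exists_frob_inertia {H : Subgroup GQ} [hHn : H.Normal] (hH : IsOpen (H : Set GQ)) {p r : ℕ}
    (hpp : p.Prime) (hr : Nat.Coprime r p) (hG : ∀ g : GQ, g ^ r ∈ H) {Q : Ideal (𝓞 Qb)}
    (hQ : Q.IsMaximal) (hpQ : (p : 𝓞 Qb) ∈ Q) {ℓ : ℕ} (hℓ : 2 ≤ ℓ) {α w : 𝓞 Qb}
    (hαH : ∀ g ∈ H, g • α = α) (hwH : ∀ g ∈ H, g • w = w) (hα : α ^ ℓ = p * w) (hw : w ∉ Q) :
    ∃ σ τ : GQ, (∀ x : 𝓞 Qb, (∀ g ∈ H, g • x = x) → τ • x - x ∈ Q) ∧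
      (∀ x : 𝓞 Qb, (∀ g ∈ H, g • x = x) → σ • x - x ^ p ∈ Q) ∧ τ • α ≠ α ∧
      (τ ^ p * σ)⁻¹ * (σ * τ) ∈ H := by
  classical
  set M : IntermediateField ℚ Qb := IntermediateField.fixedField H with hM
  have hcl : IsClosed (H : Set GQ) := Subgroup.isClosed_of_isOpen H hH
  have hfix : M.fixingSubgroup = H :=
    InfiniteGalois.fixingSubgroup_fixedField (⟨H, hcl⟩ : ClosedSubgroup GQ)
  have hfin : FiniteDimensional ℚ M := by
    rw [← InfiniteGalois.isOpen_iff_finite, hfix]
    exact hH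
  have hgal : IsGalois ℚ M := by
    have h := (InfiniteGalois.normal_iff_isGalois M).1 (by rw [hfix]; exact hHn)
    have e : (IntermediateField.algebra' M : Algebra ℚ M) = DivisionRing.toRatAlgebra :=
      Subsingleton.elim _ _
    rw [e] at h
    exact h
  have hnf : NumberField M := ⟨⟩
  have hmem : ∀ x : Qb, x ∈ M ↔ ∀ g ∈ H, g x = x := by
    intro x
    rw [hM, IntermediateField.mem_fixedField_iff]
  -- the inclusion of the rings of integers
  let ι : 𝓞 M →+* 𝓞 Qb := RingOfIntegers.mapRingHom (algebraMap M Qb)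
  have hι : ∀ x : 𝓞 M, ((ι x : 𝓞 Qb) : Qb) = ((x : M) : Qb) := fun x => rfl
  have hιinj : Function.Injective ι := by
    intro x y h
    apply RingOfIntegers.ext
    apply Subtype.ext
    exact congrArg (fun z : 𝓞 Qb => (z : Qb)) h
  have hιsurj : ∀ x : 𝓞 Qb, (∀ g ∈ H, g • x = x) → ∃ y : 𝓞 M, ι y = x := by
    intro x hx
    have h1 : (x : Qb) ∈ M := by
      rw [hmem]
      intro g hg
      exact congrArg (fun z : 𝓞 Qb => (z : Qb)) (hx g hg)
    have h2 : IsIntegral ℤ (⟨(x : Qb), h1⟩ : M) := by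
      have h3 := RingOfIntegers.isIntegral_coe x
      rw [← isIntegral_algebraMap_iff (A := M) (B := Qb) (algebraMap M Qb).injective]
      exact h3
    exact ⟨⟨⟨(x : Qb), h1⟩, h2⟩, rfl⟩
  -- the action
  have hact : ∀ (g : GQ) (x : 𝓞 M), ι (AlgEquiv.restrictNormalHom M g • x) = g • ι x := by
    intro g x
    apply RingOfIntegers.ext
    exact AlgEquiv.restrictNormal_commutes g M (x : M)
  have hker1 : ∀ g ∈ H, AlgEquiv.restrictNormalHom M g = 1 := by
    intro g hg
    apply AlgEquiv.ext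
    intro x
    apply Subtype.ext
    have h1 : ((AlgEquiv.restrictNormalHom M g x : M) : Qb) = g (x : Qb) :=
      AlgEquiv.restrictNormal_commutes g M x
    rw [h1]
    exact (hmem x).1 x.2 g hg
  have hker2 : ∀ g : GQ, AlgEquiv.restrictNormalHom M g = 1 → g ∈ H := by
    intro g hg
    rw [← hfix, IntermediateField.mem_fixingSubgroup_iff]
    intro x hx
    have h1 : ((AlgEquiv.restrictNormalHom M g ⟨x, hx⟩ : M) : Qb) = g x :=
      AlgEquiv.restrictNormal_commutes g M ⟨x, hx⟩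
    rw [← h1, hg]
    rfl
  -- the prime
  set P : Ideal (𝓞 M) := Q.comap ι with hP
  have hpP : (p : 𝓞 M) ∈ P := by
    rw [hP, Ideal.mem_comap, map_natCast]
    exact hpQ
  have hP0 : P ≠ ⊥ := by
    intro h
    rw [h, Ideal.mem_bot] at hpP
    exact hpp.ne_zero (by exact_mod_cast hpP)
  have hPprime : P.IsPrime := Ideal.IsPrime.comap ι
  have hPm : P.IsMaximal := hPprime.isMaximal hP0
  have hexp : ∀ g : Gal(M/ℚ), g ^ r = 1 := by
    intro g
    obtain ⟨g', rfl⟩ := AlgEquiv.restrictNormalHom_surjective (F := ℚ) (K₁ := M) Qb g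
    rw [← map_pow]
    exact hker1 _ (hG g')
  obtain ⟨α', hα'⟩ := hιsurj α hαH
  obtain ⟨w', hw'⟩ := hιsurj w hwH
  have hαw : α' ^ ℓ = p * w' := by
    apply hιinj
    rw [map_pow, map_mul, map_natCast, hα', hw', hα]
  have hw'P : w' ∉ P := by
    rw [hP, Ideal.mem_comap, hw']
    exact hw
  obtain ⟨τ, hτ, hτα⟩ := exists_inertia_smul_ne (G := Gal(M/ℚ)) P hpp hpP hr hexp hℓ hαw hw'P
  -- the Frobenius element
  have hcard : Nat.card (ℤ ⧸ P.under ℤ) = p := by
    have h1 : P.under ℤ = Ideal.span {(p : ℤ)} := by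
      have hpz : Prime (p : ℤ) := Nat.prime_iff_prime_int.1 hpp
      have hqm : (Ideal.span {(p : ℤ)}).IsMaximal :=
        PrincipalIdealRing.isMaximal_of_irreducible hpz.irreducible
      symm
      apply hqm.eq_of_le (Ideal.IsPrime.under ℤ P).ne_top
      rw [Ideal.span_singleton_le_iff_mem, Ideal.mem_comap]
      simpa using hpP
    rw [h1]
    rw [Nat.card_congr (Int.quotientSpanNatEquivZMod p).toEquiv, Nat.card_zmod]
  have hfq : Finite (𝓞 M ⧸ P) := Ring.HasFiniteQuotients.finiteQuotient hP0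
  obtain ⟨σ, hσ⟩ := IsArithFrobAt.exists_of_isInvariant ℤ Gal(M/ℚ) P
  have hσ' : ∀ x : 𝓞 M, σ • x - x ^ p ∈ P := by
    intro x
    have := hσ x
    rw [hcard] at this
    exact this
  have : FaithfulSMul Gal(M/ℚ) (𝓞 M) := IsGaloisGroup.faithful ℤ
  have hrel := tame_relation P hP0 hpP hr hexp hτ hσ' hpp.ne_zero
  obtain ⟨gσ, rfl⟩ := AlgEquiv.restrictNormalHom_surjective (F := ℚ) (K₁ := M) Qb σ
  obtain ⟨gτ, rfl⟩ := AlgEquiv.restrictNormalHom_surjective (F := ℚ) (K₁ := M) Qb τ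
  refine ⟨gσ, gτ, fun x hx => ?_, fun x hx => ?_, fun h => hτα ?_, ?_⟩
  · obtain ⟨y, rfl⟩ := hιsurj x hx
    rw [← hact, ← map_sub]
    exact hτ y
  · obtain ⟨y, rfl⟩ := hιsurj x hx
    rw [← hact, ← map_pow, ← map_sub]
    exact hσ' y
  · apply hιinj
    rw [hact, hα']
    exact h
  · apply hker2
    have h1 : AlgEquiv.restrictNormalHom M (gσ * gτ) = AlgEquiv.restrictNormalHom M (gτ ^ p * gσ) := by
      rw [map_mul, map_mul, map_pow]
      exact mul_inv_eq_iff_eq_mul.1 hrel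
    rw [map_mul, map_inv, h1, inv_mul_cancel]

end Pool.Agent.V1143.CD
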