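import Pool.Agent.V1143.CD.Local
import Pool.Agent.V1143.CD.Hei
import Pool.Agent.V1143.CD.Ext

/-!
# The product of the Kummer classes is not zero
-/

set_option autoImplicit false

namespace Pool.Agent.V1143.CD

open NumberField

variable {ℓ : ℕ} [hℓ : Fact ℓ.Prime]

/-- A cocycle lifting the product, with integral values. -/
structure Cocyc (K K' : Kum ℓ) where
  m : ℕ
  C : ℤ_[ℓ]
  U : GQ → ℤ_[ℓ]
  cont : Continuous U
  mul : ∀ g h, U (g * h) = U g + chi ℓ g * (chi ℓ g * U h +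
    K'.kap g * (((chi ℓ h : ℤ_[ℓ]) - 1) * C + ℓ ^ m * K.kap h))

lemma exists_pow_le (M : ℝ) : ∃ m : ℕ, ∀ x : ℚ_[ℓ], ‖x‖ ≤ M → ‖(ℓ : ℚ_[ℓ]) ^ m * x‖ ≤ 1 := by
  have h1 : ((ℓ : ℝ)⁻¹) < 1 := inv_lt_one_of_one_lt₀ (by exact_mod_cast hℓ.out.one_lt)
  have h2 : (0 : ℝ) < (ℓ : ℝ)⁻¹ := inv_pos.2 (by exact_mod_cast hℓ.out.pos)
  obtain ⟨m, hm⟩ := exists_pow_lt_of_lt_one (show (0 : ℝ) < (max M 1)⁻¹ by positivity) h1
  refine ⟨m, fun x hx => ?_⟩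
  rw [norm_mul, norm_pow, Padic.norm_p]
  calc (ℓ : ℝ)⁻¹ ^ m * ‖x‖ ≤ (max M 1)⁻¹ * max M 1 :=
        mul_le_mul hm.le (hx.trans (le_max_left _ _)) (norm_nonneg _) (by positivity)
    _ = 1 := inv_mul_cancel₀ (by positivity)

lemma exists_cocyc (B : PeriodRing ℓ) {K K' : Kum ℓ} (hK : LocTrivial K) (hK' : LocTrivial K')
    (h : Lifts (prodExt B hK hK') (1 : ℚ_[ℓ])) : Nonempty (Cocyc K K') := by
  obtain ⟨f, e, hf, hc, he, hd⟩ := h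
  have hf2 : f.2 = 1 := hf
  have hx : ∀ g, (e g).2 = (chiQ ℓ g - 1) * f.1 + kapQ K g := by
    intro g
    have h1 : (e g).2 = chiQ ℓ g ^ 0 * (chiQ ℓ g * f.1 + kapQ K g * f.2) - f.1 :=
      congrArg Prod.fst (hd g)
    rw [h1, hf2]
    ring
  have hu : ∀ g h, (e (g * h)).1 = (e g).1 + chiQ ℓ g * (chiQ ℓ g * (e h).1 +
      kapQ K' g * ((chiQ ℓ h - 1) * f.1 + kapQ K h)) := by
    intro g h
    have h1 : (e (g * h)).1 = (e g).1 + chiQ ℓ g ^ 1 * (chiQ ℓ g * (e h).1 +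
      kapQ K' g * (e h).2) := congrArg Prod.fst (he g h)
    rw [h1, hx, pow_one]
  have hcu : Continuous fun g => (e g).1 :=
    hc (LinearMap.fst ℚ_[ℓ] ℚ_[ℓ] ℚ_[ℓ] : ℚ_[ℓ] × ℚ_[ℓ] →ₗ[ℚ_[ℓ]] ℚ_[ℓ])
  obtain ⟨M, hM⟩ : ∃ M : ℝ, ∀ g, ‖(e g).1‖ ≤ M := by
    obtain ⟨M, hM⟩ := (isCompact_range hcu).isBounded.exists_norm_le
    exact ⟨M, fun g => hM _ ⟨g, rfl⟩⟩
  obtain ⟨m, hm⟩ := exists_pow_le (ℓ := ℓ) (max M ‖f.1‖)
  refine ⟨⟨m, ⟨(ℓ : ℚ_[ℓ]) ^ m * f.1, hm _ (le_max_right _ _)⟩,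
    fun g => ⟨(ℓ : ℚ_[ℓ]) ^ m * (e g).1, hm _ ((hM g).trans (le_max_left _ _))⟩, ?_, ?_⟩⟩
  · exact Continuous.subtype_mk (continuous_const.mul hcu) _
  · intro g h
    apply Subtype.ext
    change (ℓ : ℚ_[ℓ]) ^ m * (e (g * h)).1 = (ℓ : ℚ_[ℓ]) ^ m * (e g).1 +
      chiQ ℓ g * (chiQ ℓ g * ((ℓ : ℚ_[ℓ]) ^ m * (e h).1) +
        kapQ K' g * ((chiQ ℓ h - 1) * ((ℓ : ℚ_[ℓ]) ^ m * f.1) +
        ((ℓ ^ m * K.kap h : ℤ_[ℓ]) : ℚ_[ℓ])))
    have h1 : ((ℓ ^ m * K.kap h : ℤ_[ℓ]) : ℚ_[ℓ]) = (ℓ : ℚ_[ℓ]) ^ m * kapQ K h := by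
      push_cast
      rfl
    rw [hu, h1]
    ring

lemma isOpen_toZModPow (N : ℕ) (a : ZMod (ℓ ^ N)) : IsOpen {z : ℤ_[ℓ] | z.toZModPow N = a} := by
  rw [Metric.isOpen_iff]
  intro z₀ hz₀
  refine ⟨(ℓ : ℝ) ^ (-(N : ℤ)), zpow_pos (by exact_mod_cast hℓ.out.pos) _, fun z hz => ?_⟩
  rw [Metric.mem_ball, dist_eq_norm] at hz
  have h1 := (PadicInt.norm_le_pow_iff_mem_span_pow (z - z₀) N).1 hz.le
  rw [Ideal.mem_span_singleton, ← toZModPow_eq_iff] at h1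
  exact h1.trans hz₀

namespace Cocyc

variable {K K' : Kum ℓ} (D : Cocyc K K')

/-- The cocycle with values in the quotient. -/
noncomputable def X (g : GQ) : ℤ_[ℓ] := ((chi ℓ g : ℤ_[ℓ]) - 1) * D.C + ℓ ^ D.m * K.kap g

lemma X_mul (g h : GQ) : D.X (g * h) = D.X g + chi ℓ g * D.X h := by
  unfold X
  rw [map_mul, K.kap_mul, Units.val_mul]
  ring

lemma X_one : D.X 1 = 0 := by
  unfold X
  rw [map_one, K.kap_one, Units.val_one]
  ring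

lemma U_mul (g h : GQ) :
    D.U (g * h) = D.U g + chi ℓ g * (chi ℓ g * D.U h + K'.kap g * D.X h) := D.mul g h

lemma U_one : D.U 1 = 0 := by
  have h := D.U_mul 1 1
  rw [mul_one, map_one, K'.kap_one, Units.val_one, zero_mul, add_zero, one_mul, one_mul] at h
  exact (left_eq_add.1 h)

/-- Reduction modulo `ℓ ^ N`. -/
noncomputable def R (N : ℕ) : GQ →* Hei (ZMod (ℓ ^ N)) where
  toFun g := ⟨(chi ℓ g : ℤ_[ℓ]).toZModPow N, (K.kap g).toZModPow N, (K'.kap g).toZModPow N,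
    (D.X g).toZModPow N, (D.U g).toZModPow N⟩
  map_one' := by
    rw [map_one, K.kap_one, K'.kap_one, D.X_one, D.U_one, Units.val_one, map_one, map_zero]
    rfl
  map_mul' g h := by
    rw [map_mul, K.kap_mul, K'.kap_mul, D.X_mul, D.U_mul]
    ext
    · simp [Hei.mul_c]
    · simp [Hei.mul_ka]
    · simp [Hei.mul_kb]
    · simp [Hei.mul_X]
    · simp [Hei.mul_U]

lemma isOpen_ker (N : ℕ) : IsOpen ((D.R N).ker : Set GQ) := by
  have e : ((D.R N).ker : Set GQ) =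
      ((((fun g : GQ => (chi ℓ g : ℤ_[ℓ])) ⁻¹' {z | z.toZModPow N = 1} ∩
      K.kap ⁻¹' {z | z.toZModPow N = 0}) ∩ K'.kap ⁻¹' {z | z.toZModPow N = 0}) ∩
      D.X ⁻¹' {z | z.toZModPow N = 0}) ∩ D.U ⁻¹' {z | z.toZModPow N = 0} := by
    ext g
    constructor
    · intro hg
      have hg' : D.R N g = 1 := hg
      exact ⟨⟨⟨⟨congrArg Hei.c hg', congrArg Hei.ka hg'⟩, congrArg Hei.kb hg'⟩,
        congrArg Hei.X hg'⟩, congrArg Hei.U hg'⟩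
    · rintro ⟨⟨⟨⟨h1, h2⟩, h3⟩, h4⟩, h5⟩
      change D.R N g = 1
      ext
      · exact h1
      · exact h2
      · exact h3
      · exact h4
      · exact h5
  have hchi : Continuous fun g : GQ => (chi ℓ g : ℤ_[ℓ]) :=
    Units.continuous_val.comp (continuous_chi ℓ)
  have hX : Continuous D.X := by
    unfold X
    exact ((hchi.sub continuous_const).mul continuous_const).add
      (continuous_const.mul K.continuous_kap)
  rw [e]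
  exact (((((isOpen_toZModPow N 1).preimage hchi).inter
    ((isOpen_toZModPow N 0).preimage K.continuous_kap)).inter
    ((isOpen_toZModPow N 0).preimage K'.continuous_kap)).inter
    ((isOpen_toZModPow N 0).preimage hX)).inter ((isOpen_toZModPow N 0).preimage D.cont)

lemma exponent {N : ℕ} (g : GQ) : g ^ (Nat.totient (ℓ ^ N) * ℓ ^ N * ℓ ^ N) ∈ (D.R N).ker := by
  rw [MonoidHom.mem_ker, map_pow]
  apply Hei.pow_eq_one
  · have h1 : ((Units.map (PadicInt.toZModPow (p := ℓ) N).toMonoidHom (chi ℓ g) :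
        (ZMod (ℓ ^ N))ˣ)) ^ Nat.totient (ℓ ^ N) = 1 := ZMod.pow_totient _
    exact congrArg Units.val h1
  · exact ZMod.natCast_self _

end Cocyc

lemma exists_maximal {p : ℕ} (hp : p.Prime) :
    ∃ Q : Ideal (𝓞 Qb), Q.IsMaximal ∧ (p : 𝓞 Qb) ∈ Q := by
  have hpz : Prime (p : ℤ) := Nat.prime_iff_prime_int.1 hp
  have hqm : (Ideal.span {(p : ℤ)}).IsMaximal :=
    PrincipalIdealRing.isMaximal_of_irreducible hpz.irreducible
  obtain ⟨Q, hQ, hQp⟩ := Ideal.exists_ideal_over_maximal_of_isIntegral (S := 𝓞 Qb)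
    (Ideal.span {(p : ℤ)}) (by
      rw [(RingHom.injective_iff_ker_eq_bot _).1 (algebraMap ℤ (𝓞 Qb)).injective_int]
      exact bot_le)
  refine ⟨Q, hQ, ?_⟩
  have h1 : (p : ℤ) ∈ Q.comap (algebraMap ℤ (𝓞 Qb)) := by
    rw [hQp]
    exact Ideal.mem_span_singleton_self _
  rw [Ideal.mem_comap] at h1
  simpa using h1

lemma dvd_of_intCast_mem {R : Type*} [CommRing R] {Q : Ideal R} (hQ : Q ≠ ⊤) {p : ℕ}
    (hp : p.Prime) (hpQ : (p : R) ∈ Q) {z : ℤ} (hz : (z : R) ∈ Q) : (p : ℤ) ∣ z := by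
  by_contra hcon
  have h1 : IsCoprime (p : ℤ) z := by
    rw [Int.isCoprime_iff_gcd_eq_one]
    exact (Nat.Prime.coprime_iff_not_dvd hp).2 (fun h => hcon (Int.natCast_dvd.2 h))
  obtain ⟨u, v, huv⟩ := h1
  apply hQ
  rw [Ideal.eq_top_iff_one]
  have h2 : (1 : R) = (u : R) * p + v * z := by
    have := congrArg (Int.cast : ℤ → R) huv
    push_cast at this
    exact this.symm
  rw [h2]
  exact Ideal.add_mem _ (Ideal.mul_mem_left _ _ hpQ) (Ideal.mul_mem_left _ _ hz)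

lemma exists_int_of_pow_sub_mem {R : Type*} [CommRing R] {Q : Ideal R} (hQ : Q.IsMaximal) {p : ℕ}
    (hp : p.Prime) (hpQ : (p : R) ∈ Q) {x : R} (hx : x - x ^ p ∈ Q) : ∃ n : ℤ, (n : R) - x ∈ Q := by
  let _ : Field (R ⧸ Q) := Ideal.Quotient.field Q
  have : Fact p.Prime := ⟨hp⟩
  have hchar : CharP (R ⧸ Q) p := by
    rw [CharP.charP_iff_prime_eq_zero hp, ← map_natCast (Ideal.Quotient.mk Q),
      Ideal.Quotient.eq_zero_iff_mem]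
    exact hpQ
  have h1 : (Ideal.Quotient.mk Q x) ^ p = Ideal.Quotient.mk Q x := by
    rw [← map_pow]
    exact ((Ideal.Quotient.mk_eq_mk_iff_sub_mem _ _).2 hx).symm
  rw [← Subfield.mem_bot_iff_pow_eq_self, mem_bot_iff_intCast p] at h1
  obtain ⟨n, hn⟩ := h1
  refine ⟨n, ?_⟩
  rw [← Ideal.Quotient.mk_eq_mk_iff_sub_mem, map_intCast]
  exact hn

lemma dvd_or_dvd {i : ℕ} {x y : ℤ_[ℓ]} (h : (ℓ : ℤ_[ℓ]) ^ (2 * i + 1) ∣ x * y) :
    (ℓ : ℤ_[ℓ]) ^ (i + 1) ∣ x ∨ (ℓ : ℤ_[ℓ]) ^ (i + 1) ∣ y := by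
  by_contra hcon
  push Not at hcon
  obtain ⟨h1, h2⟩ := hcon
  rw [pow_dvd_iff_le_emultiplicity] at h h1 h2
  rw [emultiplicity_mul PadicInt.prime_p] at h
  have h3 : emultiplicity (ℓ : ℤ_[ℓ]) x ≤ (i : ℕ∞) := by
    rw [not_le] at h1
    push_cast at h1
    exact ENat.lt_add_one_iff (ENat.natCast_ne_top i) |>.1 h1
  have h4 : emultiplicity (ℓ : ℤ_[ℓ]) y ≤ (i : ℕ∞) := by
    rw [not_le] at h2
    push_cast at h2
    exact ENat.lt_add_one_iff (ENat.natCast_ne_top i) |>.1 h2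
  have h5 := h.trans (add_le_add h3 h4)
  have h6 : ((2 * i + 1 : ℕ) : ℕ∞) ≤ ((i + i : ℕ) : ℕ∞) := by
    push_cast at h5 ⊢
    exact h5
  have h7 : 2 * i + 1 ≤ i + i := by exact_mod_cast h6
  omega

lemma toZModPow_eq_zero_iff (n : ℕ) (z : ℤ_[ℓ]) :
    z.toZModPow n = 0 ↔ (ℓ : ℤ_[ℓ]) ^ n ∣ z := by
  rw [← map_zero (PadicInt.toZModPow (p := ℓ) n), toZModPow_eq_iff, sub_zero]

lemma ez_one (n : ℕ) : ez ℓ n (1 : ℤ_[ℓ]) = zeta ℓ n := by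
  have := ez_natCast ℓ n 1
  rwa [Nat.cast_one, pow_one] at this

/-- The roots as algebraic integers. -/
noncomputable def Kum.αO (K : Kum ℓ) {n a : ℕ} (h : K.α n ^ ℓ ^ n = a) : 𝓞 Qb :=
  ⟨K.α n, IsIntegral.of_pow (pow_pos hℓ.out.pos n) (by
    change IsIntegral ℤ (K.α n ^ ℓ ^ n)
    rw [h]
    exact isIntegral_natCast a)⟩

lemma Kum.αO_coe (K : Kum ℓ) {n a : ℕ} (h : K.α n ^ ℓ ^ n = a) :
    ((K.αO h : 𝓞 Qb) : Qb) = K.α n := rfl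

lemma Kum.αO_pow (K : Kum ℓ) {n a : ℕ} (h : K.α n ^ ℓ ^ n = a) : K.αO h ^ ℓ ^ n = (a : 𝓞 Qb) := by
  apply RingOfIntegers.ext
  have h1 : (((K.αO h) ^ ℓ ^ n : 𝓞 Qb) : Qb) = K.α n ^ ℓ ^ n := rfl
  rw [h1, h]
  simp

lemma Kum.αO_notMem (K : Kum ℓ) {n a : ℕ} (h : K.α n ^ ℓ ^ n = a) {Q : Ideal (𝓞 Qb)}
    (hQ : Q.IsMaximal) {p : ℕ} (hp : p.Prime) (hpQ : (p : 𝓞 Qb) ∈ Q) (ha : ¬ p ∣ a) :
    K.αO h ∉ Q := by
  intro hmem
  have h1 : ((a : ℤ) : 𝓞 Qb) ∈ Q := by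
    have := Ideal.pow_mem_of_mem Q hmem (ℓ ^ n) (pow_pos hℓ.out.pos n)
    rw [K.αO_pow h] at this
    exact_mod_cast this
  exact ha (by exact_mod_cast dvd_of_intCast_mem hQ.ne_top hp hpQ h1)

theorem false_of_cocyc (E : PrimeData ℓ) {K K' : Kum ℓ} (hKc : ∀ n, K.c n = E.p n)
    (hα : ∀ n, K.α n ^ ℓ ^ n = E.a n) (hβ : ∀ n, K'.α n ^ ℓ ^ n = E.b n) (D : Cocyc K K') :
    False := by
  obtain ⟨i, hi⟩ : ∃ i, i = D.m := ⟨_, rfl⟩
  obtain ⟨p, hp⟩ : ∃ p, p = E.p i := ⟨_, rfl⟩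
  have hpp : p.Prime := hp ▸ E.hp i
  have hℓp : ℓ < p := hp ▸ E.ℓp i
  have hpℓ : Nat.Coprime p ℓ := (Nat.coprime_primes hpp hℓ.out).2 hℓp.ne'
  obtain ⟨N, hN⟩ : ∃ N, N = 3 * i + 1 := ⟨_, rfl⟩
  obtain ⟨Q, hQ, hpQ⟩ := exists_maximal hpp
  have hmemker : ∀ g : GQ, g ∈ (D.R N).ker → D.R N g = 1 := fun g hg => hg
  -- the elements fixed by the kernel
  have hfixα : ∀ n ≤ N, ∀ g ∈ (D.R N).ker, g • K.αO (hα n) = K.αO (hα n) := by
    intro n hn g hg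
    apply RingOfIntegers.ext
    have h1 : (K.kap g).toZModPow N = 0 := congrArg Hei.ka (hmemker g hg)
    rw [toZModPow_eq_zero_iff] at h1
    exact (K.dvd_kap_iff g n).1 ((pow_dvd_pow _ hn).trans h1)
  have hfixβ : ∀ n ≤ N, ∀ g ∈ (D.R N).ker, g • K'.αO (hβ n) = K'.αO (hβ n) := by
    intro n hn g hg
    apply RingOfIntegers.ext
    have h1 : (K'.kap g).toZModPow N = 0 := congrArg Hei.kb (hmemker g hg)
    rw [toZModPow_eq_zero_iff] at h1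
    exact (K'.dvd_kap_iff g n).1 ((pow_dvd_pow _ hn).trans h1)
  have hfixζ : ∀ g ∈ (D.R N).ker, g • zetaO ℓ N = zetaO ℓ N := by
    intro g hg
    apply RingOfIntegers.ext
    change g (zeta ℓ N) = zeta ℓ N
    have h1 : (chi ℓ g : ℤ_[ℓ]).toZModPow N = 1 := congrArg Hei.c (hmemker g hg)
    rw [← ez_one, smul_ez, mul_one, ez_eq_iff, h1, map_one]
  -- the exponent
  have hr : Nat.Coprime (Nat.totient (ℓ ^ N) * ℓ ^ N * ℓ ^ N) p := by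
    have h1 : Nat.Coprime (ℓ ^ N) p := Nat.Coprime.pow_left _ hpℓ.symm
    have h2 : Nat.Coprime (Nat.totient (ℓ ^ N)) p := by
      rw [Nat.totient_prime_pow hℓ.out (by omega)]
      refine Nat.Coprime.mul_left (Nat.Coprime.pow_left _ hpℓ.symm) ?_
      have h3 : ℓ - 1 < p := by omega
      have h4 : 0 < ℓ - 1 := Nat.sub_pos_of_lt hℓ.out.one_lt
      exact (Nat.coprime_of_lt_prime h4.ne' h3 hpp).symm
    exact Nat.Coprime.mul_left (Nat.Coprime.mul_left h2 h1) h1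
  -- the ramified element
  have hαw : K.αO (hα (i + 1)) ^ ℓ = (p : 𝓞 Qb) * K.αO (hα i) := by
    apply RingOfIntegers.ext
    have h1 : ((K.αO (hα (i + 1)) ^ ℓ : 𝓞 Qb) : Qb) = K.α (i + 1) ^ ℓ := rfl
    rw [h1, K.α_succ, hKc, ← hp, RingOfIntegers.coe_eq_algebraMap, map_mul, map_natCast]
    rfl
  have hwQ : K.αO (hα i) ∉ Q := K.αO_notMem (hα i) hQ hpp hpQ (hp ▸ E.pa i)
  obtain ⟨σ, τ, hτ, hσ, hτα, hrel⟩ := exists_frob_inertia (D.isOpen_ker N) hpp hr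
    (fun g => D.exponent g) hQ hpQ hℓ.out.two_le (hfixα (i + 1) (by omega)) (hfixα i (by omega))
    hαw hwQ
  -- the relation
  have hR : D.R N σ * D.R N τ = D.R N τ ^ p * D.R N σ := by
    have h1 : D.R N ((τ ^ p * σ)⁻¹ * (σ * τ)) = 1 := hrel
    have h2 : D.R N (σ * τ) = D.R N (τ ^ p * σ) := by
      have h3 : σ * τ = (τ ^ p * σ) * ((τ ^ p * σ)⁻¹ * (σ * τ)) := by group
      rw [h3, map_mul _ (τ ^ p * σ), h1, mul_one]
    rw [← map_mul, h2, map_mul, map_pow]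
  -- the entries of `τ`
  have hτζ : τ • zetaO ℓ N = zetaO ℓ N := by
    refine root_eq hQ.ne_top hℓ.out.pos hpℓ hpQ ?_ (zetaO_pow ℓ N) (hτ _ hfixζ)
    rw [← smul_pow', zetaO_pow, smul_one]
  have hτc : (chi ℓ τ : ℤ_[ℓ]).toZModPow N = 1 := by
    have h1 : τ (zeta ℓ N) = zeta ℓ N := congrArg (fun x : 𝓞 Qb => (x : Qb)) hτζ
    rw [← ez_one, smul_ez, mul_one, ez_eq_iff, map_one] at h1
    exact h1
  have hτk : (K'.kap τ).toZModPow N = 0 := by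
    rw [toZModPow_eq_zero_iff, ← ez_eq_one_iff]
    have h1 := hτ _ (hfixβ N le_rfl)
    have h2 : τ • K'.αO (hβ N) =
        zetaO ℓ N ^ ((K'.kap τ).toZModPow N).val * K'.αO (hβ N) := by
      apply RingOfIntegers.ext
      rw [RingOfIntegers.coe_eq_algebraMap (zetaO ℓ N ^ _ * _), map_mul, map_pow]
      exact K'.smul_α τ N
    have h3 : (zetaO ℓ N ^ ((K'.kap τ).toZModPow N).val - 1) * K'.αO (hβ N) ∈ Q := by
      rw [sub_mul, one_mul, ← h2]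
      exact h1
    have h4 := (hQ.isPrime.mem_or_mem h3).resolve_right
      (K'.αO_notMem (hβ N) hQ hpp hpQ (hp ▸ E.pb i N))
    have h5 := root_eq_one hQ.ne_top hpℓ hpQ N _ (by
      rw [← pow_mul, mul_comm, pow_mul, zetaO_pow, one_pow]) h4
    have h6 := congrArg (fun x : 𝓞 Qb => (x : Qb)) h5
    simp only [map_pow, map_one] at h6
    exact h6
  -- the entries of `σ`
  have hσc : (chi ℓ σ : ℤ_[ℓ]).toZModPow N = (p : ZMod (ℓ ^ N)) := by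
    have h1 : σ • zetaO ℓ N = zetaO ℓ N ^ p := by
      refine root_eq hQ.ne_top hℓ.out.pos hpℓ hpQ (n := N) ?_ ?_ (hσ _ hfixζ)
      · rw [← smul_pow', zetaO_pow, smul_one]
      · rw [← pow_mul, mul_comm, pow_mul, zetaO_pow, one_pow]
    have h2 : σ (zeta ℓ N) = zeta ℓ N ^ p := congrArg (fun x : 𝓞 Qb => (x : Qb)) h1
    rw [← ez_natCast, ← ez_one, smul_ez, mul_one, ez_eq_iff, map_natCast] at h2
    exact h2
  -- the product of the entries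
  have hunit : IsUnit (p : ZMod (ℓ ^ N)) :=
    (ZMod.isUnit_iff_coprime p (ℓ ^ N)).2 (Nat.Coprime.pow_right _ hpℓ)
  have hprod := Hei.rel hunit (h := D.R N τ) (g := D.R N σ) hτc hτk hσc hR
  have hp1 : (1 - (p : ZMod (ℓ ^ N))) = 0 := by
    have h1 : ℓ ^ N ∣ p - 1 := by
      refine (pow_dvd_pow ℓ ?_).trans (hp ▸ E.p1 i)
      unfold expB
      omega
    have h2 : ((p - 1 : ℕ) : ZMod (ℓ ^ N)) = 0 := (ZMod.natCast_eq_zero_iff _ _).2 h1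
    rw [Nat.cast_sub hpp.one_le, Nat.cast_one] at h2
    linear_combination -h2
  rw [hp1, zero_mul] at hprod
  have hprod' : (K'.kap σ * D.X τ).toZModPow N = 0 := by
    rw [map_mul]
    exact hprod
  rw [toZModPow_eq_zero_iff] at hprod'
  have hτc' : (ℓ : ℤ_[ℓ]) ^ N ∣ (chi ℓ τ : ℤ_[ℓ]) - 1 := by
    rw [← toZModPow_eq_iff, hτc, map_one]
  have h1 : (ℓ : ℤ_[ℓ]) ^ N ∣ (ℓ : ℤ_[ℓ]) ^ i * (K'.kap σ * K.kap τ) := by
    have e : (ℓ : ℤ_[ℓ]) ^ i * (K'.kap σ * K.kap τ) =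
        K'.kap σ * D.X τ - ((chi ℓ τ : ℤ_[ℓ]) - 1) * (K'.kap σ * D.C) := by
      unfold Cocyc.X
      rw [hi]
      ring
    rw [e]
    exact dvd_sub hprod' (Dvd.dvd.mul_right hτc' _)
  have h2 : (ℓ : ℤ_[ℓ]) ^ (2 * i + 1) ∣ K'.kap σ * K.kap τ := by
    rw [hN, show 3 * i + 1 = i + (2 * i + 1) by ring, pow_add] at h1
    exact (mul_dvd_mul_iff_left (pow_ne_zero _ (by exact_mod_cast hℓ.out.ne_zero))).1 h1
  rcases dvd_or_dvd h2 with h3 | h3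
  · -- `b` would be a power modulo `p`
    have h4 := (K'.dvd_kap_iff σ (i + 1)).1 h3
    have h5 : σ • K'.αO (hβ (i + 1)) = K'.αO (hβ (i + 1)) := RingOfIntegers.ext h4
    have h6 := hσ _ (hfixβ (i + 1) (by omega))
    rw [h5] at h6
    obtain ⟨n, hn⟩ := exists_int_of_pow_sub_mem hQ hpp hpQ h6
    have h7 : ((n ^ (ℓ ^ (i + 1)) - E.b (i + 1) : ℤ) : 𝓞 Qb) ∈ Q := by
      have h8 := sub_dvd_pow_sub_pow (n : 𝓞 Qb) (K'.αO (hβ (i + 1))) (ℓ ^ (i + 1))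
      rw [K'.αO_pow] at h8
      have h9 := Ideal.mem_of_dvd Q h8 hn
      push_cast
      exact h9
    have h8 := dvd_of_intCast_mem hQ.ne_top hpp hpQ h7
    have h9 : ((n ^ (ℓ ^ (i + 1)) - E.b (i + 1) : ℤ) : ZMod p) = 0 :=
      (ZMod.intCast_zmod_eq_zero_iff_dvd _ _).2 h8
    push_cast at h9
    subst hp
    exact E.hnot i n (sub_eq_zero.1 h9)
  · apply hτα
    exact RingOfIntegers.ext ((K.dvd_kap_iff τ (i + 1)).1 h3)

/-- The product of the Kummer classes is not zero in `Ext²`. -/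
theorem exists_ext_two (ℓ : ℕ) [hℓ : Fact ℓ.Prime] (B : PeriodRing ℓ) :
    ∃ ξ : TwoExt (InC B) (tw ℓ 0) (tw ℓ 2),
      ¬ ξ.Equiv (TwoExt.zero (tw_inC B 0) (tw_inC B 2)) := by
  obtain ⟨E⟩ := exists_primeData ℓ
  obtain ⟨K, hKc, hα, hK⟩ := exists_kum (fun i => (E.hp i).ne_zero) E.a_zero E.a_succ E.ha E.p1'
  obtain ⟨K', -, hβ, hK'⟩ := exists_kum (fun i => (E.hq i).ne_zero) E.b_zero E.b_succ E.hb E.q1'
  refine ⟨prodExt B hK hK', fun h => ?_⟩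
  have hv : ∀ g, (tw ℓ 0).ρ g (1 : ℚ_[ℓ]) = (1 : ℚ_[ℓ]) := by
    intro g
    rw [tw_apply, pow_zero, one_mul]
  have h1 : Lifts (prodExt B hK hK') (1 : ℚ_[ℓ]) :=
    (lifts_iff_of_equiv h hv).2 (lifts_zero _ _ hv)
  obtain ⟨D⟩ := exists_cocyc B hK hK' h1
  exact false_of_cocyc E hKc hα hβ D

end Pool.Agent.V1143.CD
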