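import Pool.Agent.V1143.CD.Tame

/-!
# Ramified elements are moved by inertia

Let `α ^ ℓ = p * w` with `w` prime to `P`, where `P` is above `p`. If the Galois group has exponent
prime to `p`, then some element of the inertia group of `P` moves `α`.
-/

set_option autoImplicit false

namespace Pool.Agent.V1143.CD

variable {B : Type*} [CommRing B] {G : Type*} [Group G] [MulSemiringAction G B]

open Ideal

/-- The largest power of `P` containing `x`. -/
lemma exists_max_pow [IsDomain B] [IsNoetherianRing B] {P : Ideal B} (hP : P ≠ ⊤) {x : B}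
    (hx : x ≠ 0) : ∃ k, x ∈ P ^ k ∧ x ∉ P ^ (k + 1) := by
  classical
  have h : ∃ n, x ∉ P ^ n := by
    by_contra hcon
    push Not at hcon
    have h4 : x ∈ (⨅ n : ℕ, P ^ n : Ideal B) := by
      rw [Ideal.mem_iInf]
      exact hcon
    rw [Ideal.iInf_pow_eq_bot_of_isDomain P hP, Ideal.mem_bot] at h4
    exact hx h4
  obtain ⟨m, hm⟩ : ∃ m, Nat.find h = m + 1 := by
    rcases Nat.eq_zero_or_eq_succ_pred (Nat.find h) with h0 | h0
    · have := Nat.find_spec h
      rw [h0] at this
      simp at this
    · exact ⟨_, h0⟩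
  refine ⟨m, ?_, ?_⟩
  · by_contra hcon
    exact absurd (Nat.find_min' h hcon) (by omega)
  · have := Nat.find_spec h
    rwa [hm] at this

/-- The tame character on the powers of `P`. -/
lemma smul_sub_mem_pow {P : Ideal B} {τ : G} (hτ : ∀ x : B, τ • x - x ∈ P) {c : B}
    (hc : ∀ y ∈ P, τ • y - c * y ∈ P ^ 2) (k : ℕ) :
    ∀ x ∈ P ^ k, τ • x - c ^ k * x ∈ P ^ (k + 1) := by
  have hτP : ∀ k : ℕ, ∀ x ∈ P ^ k, τ • x ∈ P ^ k := by
    intro k
    induction k with
    | zero => simp
    | succ k ih =>
      intro x hx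
      rw [pow_succ'] at hx ⊢
      induction hx using Submodule.mul_induction_on' with
      | mem_mul_mem a ha b hb =>
        rw [smul_mul']
        refine Ideal.mul_mem_mul ?_ (ih b hb)
        have := Ideal.add_mem _ (hτ a) ha
        simpa using this
      | add a _ b _ ha hb =>
        rw [smul_add]
        exact Ideal.add_mem _ ha hb
  induction k with
  | zero =>
    intro x _
    simpa using hτ x
  | succ k ih =>
    intro x hx
    rw [pow_succ'] at hx
    induction hx using Submodule.mul_induction_on' with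
    | mem_mul_mem a ha b hb =>
      have e : τ • (a * b) - c ^ (k + 1) * (a * b) =
          (τ • a - c * a) * (τ • b) + (c * a) * (τ • b - c ^ k * b) := by
        rw [smul_mul']
        ring
      rw [e]
      apply Ideal.add_mem
      · have := Ideal.mul_mem_mul (hc a ha) (hτP k b hb)
        rwa [← pow_add, add_comm 2 k] at this
      · have := Ideal.mul_mem_mul (Ideal.mul_mem_left _ c ha) (ih b hb)
        rwa [← pow_succ'] at this
    | add a _ b _ ha hb =>
      have e : τ • (a + b) - c ^ (k + 1) * (a + b) =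
          (τ • a - c ^ (k + 1) * a) + (τ • b - c ^ (k + 1) * b) := by
        rw [smul_add]
        ring
      rw [e]
      exact Ideal.add_mem _ ha hb

/-- The tame character. -/
lemma exists_tame [IsDedekindDomain B] {P : Ideal B} [hPm : P.IsMaximal] (hP : P ≠ ⊥) {τ : G}
    (hτ : ∀ x : B, τ • x - x ∈ P) : ∃ c : B, ∀ y ∈ P, τ • y - c * y ∈ P ^ 2 := by
  have hτP : ∀ x ∈ P, τ • x ∈ P := by
    intro x hx
    have := Ideal.add_mem _ (hτ x) hx
    simpa using this
  have hsq : ∀ x ∈ P ^ 2, τ • x ∈ P ^ 2 := by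
    intro x hx
    rw [pow_two] at hx ⊢
    induction hx using Submodule.mul_induction_on' with
    | mem_mul_mem a ha b hb =>
      rw [smul_mul']
      exact Ideal.mul_mem_mul (hτP a ha) (hτP b hb)
    | add a _ b _ ha hb =>
      rw [smul_add]
      exact Ideal.add_mem _ ha hb
  have hne : P ^ 2 ≠ P := by
    intro h
    have h1 : P ^ 2 < P ^ 1 := Ideal.pow_right_strictAnti P hP hPm.ne_top (by norm_num)
    rw [pow_one, h] at h1
    exact lt_irrefl _ h1
  obtain ⟨π, hπ, hπ2⟩ : ∃ π ∈ P, π ∉ P ^ 2 := by
    by_contra hcon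
    push Not at hcon
    exact hne (le_antisymm (Ideal.pow_le_self (by norm_num)) hcon)
  have hexp : ∀ y ∈ P, ∃ d : B, ∃ e ∈ P ^ 2, π * d + e = y := by
    intro y hy
    have := Ideal.exists_mul_add_mem_pow_succ (P := P) (i := 1) hP π y (by simpa using hπ)
      (by simpa using hπ2) (by simpa using hy)
    simpa using this
  obtain ⟨c, e, he, hce⟩ := hexp _ (hτP π hπ)
  refine ⟨c, fun y hy => ?_⟩
  obtain ⟨d, e', he', rfl⟩ := hexp y hy
  have : τ • (π * d + e') - c * (π * d + e') =
      (τ • d - d) * (τ • π) + d * e + (τ • e') - c * e' := by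
    rw [smul_add, smul_mul', ← hce]
    ring
  rw [this]
  refine Ideal.sub_mem _ (Ideal.add_mem _ (Ideal.add_mem _ ?_ ?_) ?_) ?_
  · rw [pow_two]
    exact Ideal.mul_mem_mul (hτ d) (hτP π hπ)
  · exact Ideal.mul_mem_left _ _ he
  · exact hsq _ he'
  · exact Ideal.mul_mem_left _ _ he'

theorem exists_inertia_smul_ne [IsDedekindDomain B] [CharZero B] [Module.Finite ℤ B] [Finite G]
    [IsGaloisGroup G ℤ B] (P : Ideal B) [hPm : P.IsMaximal] {p : ℕ} (hpp : p.Prime)
    (hp : (p : B) ∈ P) {r : ℕ} (hr : Nat.Coprime r p) (hG : ∀ g : G, g ^ r = 1) {ℓ : ℕ}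
    (hℓ : 2 ≤ ℓ) {α w : B} (hα : α ^ ℓ = p * w) (hw : w ∉ P) :
    ∃ τ : G, (∀ x : B, τ • x - x ∈ P) ∧ τ • α ≠ α := by
  classical
  by_contra hcon
  push Not at hcon
  have : FaithfulSMul G B := IsGaloisGroup.faithful ℤ
  have hpB : (p : B) ≠ 0 := by exact_mod_cast hpp.ne_zero
  have hP : P ≠ ⊥ := by
    rintro rfl
    exact hpB (by simpa using hp)
  have hw0 : w ≠ 0 := by
    rintro rfl
    exact hw (zero_mem _)
  have hα0 : α ≠ 0 := by
    rintro rfl
    rw [zero_pow (by omega)] at hα
    exact mul_ne_zero hpB hw0 hα.symm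
  have hαP : α ∈ P := hPm.isPrime.mem_of_pow_mem ℓ (by
    rw [hα]
    exact Ideal.mul_mem_right _ _ hp)
  obtain ⟨k, hk, hk1⟩ := exists_max_pow hPm.ne_top hα0
  have hk0 : 1 ≤ k := by
    rcases Nat.eq_zero_or_pos k with h0 | h0
    · rw [h0, zero_add, pow_one] at hk1
      exact absurd hαP hk1
    · exact h0
  obtain ⟨e, he, he1⟩ := exists_max_pow hPm.ne_top hpB
  have hke : k * ℓ ≤ e := by
    by_contra hlt
    push Not at hlt
    apply he1
    have h1 : (p : B) * w ∈ P ^ (k * ℓ) := by
      rw [← hα, pow_mul]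
      exact Ideal.pow_mem_pow hk ℓ
    have h2 := (Ideal.IsPrime.mem_pow_mul P h1).resolve_right hw
    exact Ideal.pow_le_pow_right hlt h2
  -- the inertia group has order `e`
  have hcard : Nat.card (P.inertia G) = e := by
    set q : Ideal ℤ := Ideal.span {(p : ℤ)} with hq
    have hpz : Prime (p : ℤ) := Nat.prime_iff_prime_int.1 hpp
    have hq0 : q ≠ ⊥ := by
      rw [hq, Ne, Ideal.span_singleton_eq_bot]
      exact_mod_cast hpp.ne_zero
    have hqm : q.IsMaximal := PrincipalIdealRing.isMaximal_of_irreducible hpz.irreducible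
    have hlies : P.LiesOver q := by
      constructor
      apply hqm.eq_of_le (Ideal.IsPrime.under ℤ P).ne_top
      rw [hq, Ideal.span_singleton_le_iff_mem, Ideal.mem_comap]
      simpa using hp
    have hfin : Finite (ℤ ⧸ q) := Ring.HasFiniteQuotients.finiteQuotient hq0
    have hperf : PerfectField q.ResidueField := by
      have : Finite q.ResidueField := by
        have hb : Function.Bijective (algebraMap (ℤ ⧸ q) q.ResidueField) :=
          Ideal.bijective_algebraMap_quotient_residueField q
        exact Finite.of_surjective _ hb.2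
      infer_instance
    rw [Ideal.card_inertia_eq_ramificationIdxIn q P,
      Ideal.ramificationIdxIn_eq_ramificationIdx q P G,
      ← Ideal.ramificationIdx'_eq_ramificationIdx q P hq0]
    apply Ideal.ramificationIdx'_spec
    · rw [hq, Ideal.map_span, Set.image_singleton, Ideal.span_singleton_le_iff_mem]
      simpa using he
    · rw [hq, Ideal.map_span, Set.image_singleton, Ideal.span_singleton_le_iff_mem]
      simpa using he1
  -- the tame character
  have hc : ∀ τ : P.inertia G, ∃ c : B, ∀ y ∈ P, (τ : G) • y - c * y ∈ P ^ 2 :=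
    fun τ => exists_tame hP τ.2
  choose c hc using hc
  have hroot : ∀ τ : P.inertia G, (Ideal.Quotient.mk P (c τ)) ^ k = 1 := by
    intro τ
    have h1 := smul_sub_mem_pow τ.2 (hc τ) k α hk
    rw [hcon τ τ.2] at h1
    have h2 : (1 - c τ ^ k) * α ∈ P ^ (k + 1) := by
      have e1 : (1 - c τ ^ k) * α = α - c τ ^ k * α := by ring
      rwa [e1]
    have h3 := (Ideal.IsPrime.mul_mem_pow P h2).resolve_right hk1
    rw [← map_pow, ← map_one (Ideal.Quotient.mk P), Ideal.Quotient.eq, ← neg_sub]
    exact P.neg_mem h3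
  have hinj : Function.Injective fun τ : P.inertia G => Ideal.Quotient.mk P (c τ) := by
    intro τ τ' h
    have h1 : c τ - c τ' ∈ P := by rwa [Ideal.Quotient.eq] at h
    have h2 : ((τ'⁻¹ * τ : P.inertia G) : G) = 1 := by
      apply eq_of_smul_eq_smul (α := B)
      intro x
      rw [one_smul]
      refine smul_eq_self hPm.ne_top hp hr (hG _) (τ'⁻¹ * τ : P.inertia G).2 ?_ x
      intro y hy
      have h3 : (τ : G) • y - (τ' : G) • y ∈ P ^ 2 := by
        have e1 : (τ : G) • y - (τ' : G) • y =
            ((τ : G) • y - c τ * y) - ((τ' : G) • y - c τ' * y) + (c τ - c τ') * y := by ring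
        rw [e1]
        refine Ideal.add_mem _ (Ideal.sub_mem _ (hc τ y hy) (hc τ' y hy)) ?_
        rw [pow_two]
        exact Ideal.mul_mem_mul h1 hy
      have hinv : ∀ z ∈ P ^ 2, ((τ'⁻¹ : P.inertia G) : G) • z ∈ P ^ 2 := by
        have hτP : ∀ x ∈ P, ((τ'⁻¹ : P.inertia G) : G) • x ∈ P := by
          intro x hx
          have := Ideal.add_mem _ ((τ'⁻¹ : P.inertia G).2 x) hx
          simpa using this
        intro x hx
        rw [pow_two] at hx ⊢
        induction hx using Submodule.mul_induction_on' with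
        | mem_mul_mem a ha b hb =>
          rw [smul_mul']
          exact Ideal.mul_mem_mul (hτP a ha) (hτP b hb)
        | add a _ b _ ha hb =>
          rw [smul_add]
          exact Ideal.add_mem _ ha hb
      have h4 := hinv _ h3
      rw [smul_sub, Subgroup.coe_inv, inv_smul_smul] at h4
      rwa [Subgroup.coe_mul, Subgroup.coe_inv, mul_smul]
    have h5 : (τ'⁻¹ * τ : P.inertia G) = 1 := Subtype.ext h2
    rw [inv_mul_eq_one] at h5
    exact h5.symm
  -- count
  have hdom : IsDomain (B ⧸ P) := Ideal.Quotient.isDomain P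
  have hle : Nat.card (P.inertia G) ≤ k := by
    have : Finite (P.inertia G) := inferInstance
    have : Fintype (P.inertia G) := Fintype.ofFinite _
    rw [Nat.card_eq_fintype_card]
    have h1 : (Finset.univ.image fun τ : P.inertia G => Ideal.Quotient.mk P (c τ)) ⊆
        (Polynomial.nthRoots k (1 : B ⧸ P)).toFinset := by
      intro x hx
      rw [Finset.mem_image] at hx
      obtain ⟨τ, _, rfl⟩ := hx
      rw [Multiset.mem_toFinset, Polynomial.mem_nthRoots (by omega)]
      exact hroot τ
    have h2 := Finset.card_le_card h1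
    rw [Finset.card_image_of_injective _ hinj, Finset.card_univ] at h2
    exact h2.trans ((Multiset.toFinset_card_le _).trans (Polynomial.card_nthRoots k 1))
  rw [hcard] at hle
  have h6 : k * 2 ≤ k * ℓ := Nat.mul_le_mul_left k hℓ
  omega

end Pool.Agent.V1143.CD
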