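import Pool.Agent.V1143.CD.Kummer

/-!
# Mixed potentially semistable representations of the absolute Galois group of `ℚ`, and Yoneda
extensions of length two
-/

set_option autoImplicit false

noncomputable section

namespace Pool.Agent.V1143.CD

open NumberField TensorProduct

/-- An `ℓ`-adic representation of the absolute Galois group `GQ` of `ℚ`: a finite dimensional
`ℚ_ℓ`-vector space with a continuous linear action. (An action on a finite dimensional space is
continuous when its matrix coefficients are.) -/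
structure Rep (ℓ : ℕ) [Fact ℓ.Prime] where
  /-- the space -/
  V : Type
  [addCommGroup : AddCommGroup V]
  [module : Module ℚ_[ℓ] V]
  [finite : Module.Finite ℚ_[ℓ] V]
  /-- the action -/
  ρ : Representation ℚ_[ℓ] GQ V
  cont : ∀ (v : V) (f : Module.Dual ℚ_[ℓ] V), Continuous fun g => f (ρ g v)

attribute [instance] Rep.addCommGroup Rep.module Rep.finite

variable {ℓ : ℕ} [hℓ : Fact ℓ.Prime]

section Pure

variable {M : Type} [AddCommGroup M] [Module ℚ_[ℓ] M]

/-- The action `f` on `M` is unramified at `p`: the inertia groups of all the maximal ideals `P`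
above `p` of the ring of all algebraic integers act trivially. -/
def Unramified (f : GQ → Module.End ℚ_[ℓ] M) (p : ℕ) : Prop :=
  ∀ P : Ideal (𝓞 Qb), P.IsMaximal → (p : 𝓞 Qb) ∈ P → ∀ g : GQ, (∀ x : 𝓞 Qb, g • x - x ∈ P) →
    f g = 1

/-- `g` is an arithmetic Frobenius element at the maximal ideal `P` above `p` of the ring of all
algebraic integers. -/
def IsFrob (p : ℕ) (P : Ideal (𝓞 Qb)) (g : GQ) : Prop := ∀ x : 𝓞 Qb, g • x - x ^ p ∈ P

/-- The eigenvalues on `M` of the geometric Frobenius elements above `p` are algebraic numbers all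
of whose complex absolute values are equal to `p ^ (m / 2)`. -/
def FrobWeight [Module.Finite ℚ_[ℓ] M] (f : GQ → Module.End ℚ_[ℓ] M) (p : ℕ) (m : ℤ) : Prop :=
  ∀ P : Ideal (𝓞 Qb), P.IsMaximal → (p : 𝓞 Qb) ∈ P → ∀ g : GQ, IsFrob p P g →
    ∀ z : AlgebraicClosure ℚ_[ℓ], Polynomial.aeval z (f g⁻¹).charpoly = 0 →
      IsAlgebraic ℚ z ∧ ∀ w : ℂ, Polynomial.aeval w (minpoly ℚ z) = 0 →
        ‖w‖ = (p : ℝ) ^ ((m : ℝ) / 2)

/-- The action `f` on `M` is pure of weight `m`: there is a ring `R = ℤ[1/N]`, with `ℓ` invertible,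
such that `M` is unramified and has Frobenius eigenvalues of weight `m` at every closed point of
`Spec R`. -/
def Pure [Module.Finite ℚ_[ℓ] M] (f : GQ → Module.End ℚ_[ℓ] M) (m : ℤ) : Prop :=
  ∃ N : ℕ, N ≠ 0 ∧ ℓ ∣ N ∧ ∀ p : ℕ, p.Prime → ¬ p ∣ N → Unramified f p ∧ FrobWeight f p m

end Pure

/-- A subspace which is stable under the action. -/
def Stable (V : Rep ℓ) (A : Submodule ℚ_[ℓ] V.V) : Prop := ∀ g : GQ, ∀ v ∈ A, V.ρ g v ∈ A

/-- A weight filtration: an increasing filtration by stable subspaces `W m`, with `W m = 0` for some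
`m` and `W m = V` for some `m`. -/
structure Filt (V : Rep ℓ) where
  /-- the filtration -/
  W : ℤ → Submodule ℚ_[ℓ] V.V
  mono : Monotone W
  stable : ∀ m, Stable V (W m)
  bot : ∃ m, W m = ⊥
  top : ∃ m, W m = ⊤

/-- The action on the graded piece `W m / W (m - 1)`. -/
def Filt.act {V : Rep ℓ} (F : Filt V) (m : ℤ) (g : GQ) :
    Module.End ℚ_[ℓ] (F.W m ⧸ (F.W (m - 1)).submoduleOf (F.W m)) :=
  Submodule.mapQ _ _ ((V.ρ g).restrict (F.stable m g)) fun v hv => F.stable (m - 1) g v.1 hv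

/-- The representation `V` is mixed: it has a finite increasing filtration by subrepresentations
`W m` with `W m / W (m - 1)` pure of weight `m`. -/
def Mixed (V : Rep ℓ) : Prop := ∃ F : Filt V, ∀ m, Pure (F.act m) m

variable (ℓ)

/-- An algebraic closure of `ℚ_ℓ`. -/
abbrev Lb : Type := AlgebraicClosure ℚ_[ℓ]

/-- The absolute Galois group of `ℚ_ℓ`. -/
abbrev GLoc : Type := Gal(Lb ℓ/ℚ_[ℓ])

/-- An embedding of the algebraic closure of `ℚ` in that of `ℚ_ℓ`. -/
def emb : Qb →ₐ[ℚ] Lb ℓ := IsAlgClosed.lift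

lemma exists_res (g : GLoc ℓ) : ∃ h : GQ, ∀ x : Qb, emb ℓ (h x) = g (emb ℓ x) := by
  let _ : Algebra Qb (Lb ℓ) := (emb ℓ).toRingHom.toAlgebra
  have : IsScalarTower ℚ Qb (Lb ℓ) := IsScalarTower.of_algebraMap_eq' (Subsingleton.elim _ _)
  exact ⟨(g.restrictScalars ℚ).restrictNormal Qb, fun x =>
    AlgEquiv.restrictNormal_commutes (g.restrictScalars ℚ) Qb x⟩

/-- The restriction homomorphism from the absolute Galois group of `ℚ_ℓ` to that of `ℚ`; its image
is a decomposition group at `ℓ`. -/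
def res : GLoc ℓ →* GQ where
  toFun g := (exists_res ℓ g).choose
  map_one' := by
    ext x
    apply (emb ℓ).injective
    exact (exists_res ℓ 1).choose_spec x
  map_mul' g h := by
    ext x
    apply (emb ℓ).injective
    have h1 := (exists_res ℓ (g * h)).choose_spec x
    have h2 := (exists_res ℓ g).choose_spec ((exists_res ℓ h).choose x)
    have h3 := (exists_res ℓ h).choose_spec x
    rw [AlgEquiv.mul_apply] at h1
    change emb ℓ _ = emb ℓ ((exists_res ℓ g).choose ((exists_res ℓ h).choose x))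
    rw [h2, h3]
    exact h1

lemma emb_res (g : GLoc ℓ) (x : Qb) : emb ℓ (res ℓ g x) = g (emb ℓ x) :=
  (exists_res ℓ g).choose_spec x

/-- A period ring: a `ℚ_ℓ`-algebra `B` with an action of the absolute Galois group of `ℚ_ℓ` and with
an invertible element `t` (the period of the Tate twist) such that `g t = χ(g) t`. Fontaine's ring
`B_st` is an example. -/
structure PeriodRing where
  /-- the ring -/
  B : Type
  [commRing : CommRing B]
  [algebra : Algebra ℚ_[ℓ] B]
  /-- the action -/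
  σ : GLoc ℓ →* (B ≃ₐ[ℚ_[ℓ]] B)
  /-- the period -/
  t : Bˣ
  ht : ∀ g : GLoc ℓ, σ g t = algebraMap ℚ_[ℓ] B ((chi ℓ (res ℓ g) : ℤ_[ℓ]) : ℚ_[ℓ]) * t

attribute [instance] PeriodRing.commRing PeriodRing.algebra

variable {ℓ}

/-- The `B`-module `B ⊗ V`. -/
def PeriodRing.T (B : PeriodRing ℓ) (V : Rep ℓ) : Type := B.B ⊗[ℚ_[ℓ]] V.V

instance PeriodRing.instGroup (B : PeriodRing ℓ) (V : Rep ℓ) : AddCommGroup (B.T V) :=
  TensorProduct.addCommGroup (R := ℚ_[ℓ]) (M := B.B) (N := V.V)

instance PeriodRing.instModule (B : PeriodRing ℓ) (V : Rep ℓ) : Module ℚ_[ℓ] (B.T V) :=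
  TensorProduct.instModule (R := ℚ_[ℓ]) (M := B.B) (N := V.V)

instance PeriodRing.instModuleB (B : PeriodRing ℓ) (V : Rep ℓ) : Module B.B (B.T V) :=
  TensorProduct.leftModule (R := ℚ_[ℓ]) (R'' := B.B) (M := B.B) (N := V.V)

/-- The action of `g` on `B ⊗ V`. -/
def PeriodRing.act (B : PeriodRing ℓ) (V : Rep ℓ) (g : GLoc ℓ) : B.T V →ₗ[ℚ_[ℓ]] B.T V :=
  TensorProduct.map (B.σ g).toLinearMap (V.ρ (res ℓ g))

variable (ℓ) in
/-- An element of the absolute Galois group of `ℚ_ℓ` which fixes `L`. -/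
def Fixes (L : IntermediateField ℚ_[ℓ] (Lb ℓ)) (g : GLoc ℓ) : Prop := ∀ x ∈ L, g x = x

variable (ℓ) in
/-- A finite extension of `ℚ_ℓ`. -/
def IsFiniteExt (L : IntermediateField ℚ_[ℓ] (Lb ℓ)) : Prop := FiniteDimensional ℚ_[ℓ] L

/-- The representation `V` is potentially `B`-admissible at `ℓ`: for some finite extension `L` of
`ℚ_ℓ`, the `B`-module `B ⊗ V` has a basis of elements which are invariant under the absolute Galois
group of `L`. For `B = B_st` this means that `V` is potentially semistable at `ℓ`. -/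
def PotAdmissible (B : PeriodRing ℓ) (V : Rep ℓ) : Prop :=
  ∃ L : IntermediateField ℚ_[ℓ] (Lb ℓ), IsFiniteExt ℓ L ∧
    ∃ (d : ℕ) (b : Module.Basis (Fin d) B.B (B.T V)),
      ∀ g, Fixes ℓ L g → ∀ i, B.act V g (b i) = b i

/-- The objects of the category `C`: the mixed representations which are potentially `B`-admissible
at `ℓ`. -/
def InC (B : PeriodRing ℓ) (V : Rep ℓ) : Prop := Mixed V ∧ PotAdmissible B V

/-- Homomorphisms of representations. -/
structure Rep.Hom (V W : Rep ℓ) where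
  /-- the linear map -/
  f : V.V →ₗ[ℚ_[ℓ]] W.V
  comm : ∀ g v, f (V.ρ g v) = W.ρ g (f v)

/-- A Yoneda extension of length two of `V` by `W` in the full subcategory of representations given
by `C`: an exact sequence `0 → W → E₁ → E₂ → V → 0` with `E₁` and `E₂` in `C`. -/
structure TwoExt (C : Rep ℓ → Prop) (V W : Rep ℓ) where
  E₁ : Rep ℓ
  E₂ : Rep ℓ
  mem₁ : C E₁
  mem₂ : C E₂
  i : W.Hom E₁
  d : E₁.Hom E₂
  π : E₂.Hom V
  inj : Function.Injective i.f
  ex₁ : LinearMap.range i.f = LinearMap.ker d.f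
  ex₂ : LinearMap.range d.f = LinearMap.ker π.f
  surj : Function.Surjective π.f

/-- A morphism of Yoneda extensions of length two, the identity on `V` and on `W`. -/
structure TwoExt.Map {C : Rep ℓ → Prop} {V W : Rep ℓ} (ξ ξ' : TwoExt C V W) where
  φ₁ : ξ.E₁.Hom ξ'.E₁
  φ₂ : ξ.E₂.Hom ξ'.E₂
  comm_i : ∀ w, φ₁.f (ξ.i.f w) = ξ'.i.f w
  comm_d : ∀ x, φ₂.f (ξ.d.f x) = ξ'.d.f (φ₁.f x)
  comm_π : ∀ x, ξ'.π.f (φ₂.f x) = ξ.π.f x

/-- Two Yoneda extensions of length two define the same element of `Ext²_C(V, W)`: the equivalence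
relation generated by the morphisms. -/
def TwoExt.Equiv {C : Rep ℓ → Prop} {V W : Rep ℓ} (ξ ξ' : TwoExt C V W) : Prop :=
  Relation.EqvGen (fun ξ ξ' : TwoExt C V W => Nonempty (ξ.Map ξ')) ξ ξ'

/-- The identity homomorphism. -/
def Rep.Hom.id (V : Rep ℓ) : V.Hom V := ⟨LinearMap.id, fun _ _ => rfl⟩

/-- The zero homomorphism. -/
def Rep.Hom.zero (V W : Rep ℓ) : V.Hom W := ⟨0, fun _ _ => by simp⟩

/-- The zero element of `Ext²_C(V, W)`: the extension `0 → W = W → V = V → 0` with the zero map in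
the middle. -/
def TwoExt.zero {C : Rep ℓ → Prop} {V W : Rep ℓ} (hV : C V) (hW : C W) : TwoExt C V W where
  E₁ := W
  E₂ := V
  mem₁ := hW
  mem₂ := hV
  i := Rep.Hom.id W
  d := Rep.Hom.zero W V
  π := Rep.Hom.id V
  inj := Function.injective_id
  ex₁ := by
    rw [Rep.Hom.id, Rep.Hom.zero, LinearMap.range_id, LinearMap.ker_zero]
  ex₂ := by
    rw [Rep.Hom.id, Rep.Hom.zero, LinearMap.ker_id, LinearMap.range_zero]
  surj := Function.surjective_id

end Pool.Agent.V1143.CD
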