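import Mathlib

/-!
# The tame relation

Let a finite group `G` of exponent prime to `p` act faithfully on a Dedekind domain `B`, let `P` be a
maximal ideal containing `p`, let `τ` be in the inertia group of `P` and let `σ` be a Frobenius element.
Then `σ τ σ⁻¹ = τ ^ p`.
-/

set_option autoImplicit false

namespace Pool.Agent.V1143.CD

variable {B : Type*} [CommRing B] {G : Type*} [Group G] [MulSemiringAction G B]

/-- If `h` acts trivially on `B / P` and on `P / P ^ 2`, then it acts trivially on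
`P ^ n / P ^ (n + 1)`. -/
lemma smul_sub_mem_pow_succ {P : Ideal B} {h : G} (h0 : ∀ x : B, h • x - x ∈ P)
    (h1 : ∀ x ∈ P, h • x - x ∈ P ^ 2) (n : ℕ) : ∀ x ∈ P ^ n, h • x - x ∈ P ^ (n + 1) := by
  induction n with
  | zero =>
    intro x _
    simpa using h0 x
  | succ n ih =>
    intro x hx
    rw [pow_succ'] at hx
    induction hx using Submodule.mul_induction_on' with
    | mem_mul_mem a ha b hb =>
      have e : h • (a * b) - a * b = (h • a - a) * b + (h • a) * (h • b - b) := by
        rw [smul_mul']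
        ring
      rw [e]
      apply Ideal.add_mem
      · have := Ideal.mul_mem_mul (h1 a ha) hb
        rwa [← pow_add, add_comm 2 n] at this
      · have h2 : h • a ∈ P := by
          have := Ideal.add_mem _ (h0 a) ha
          simpa using this
        have := Ideal.mul_mem_mul h2 (ih b hb)
        rwa [← pow_succ'] at this
    | add a _ b _ ha hb =>
      have e : h • (a + b) - (a + b) = (h • a - a) + (h • b - b) := by
        rw [smul_add]
        ring
      rw [e]
      exact Ideal.add_mem _ ha hb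

lemma mem_of_mul_mem {I : Ideal B} {p r n : ℕ} (hr : Nat.Coprime r p) {y : B}
    (hp : ∀ z : B, (p : B) ^ n * z ∈ I) (hy : (r : B) * y ∈ I) : y ∈ I := by
  have hc : Nat.Coprime r (p ^ n) := Nat.Coprime.pow_right n hr
  have hb := Nat.gcd_eq_gcd_ab r (p ^ n)
  rw [hc.gcd_eq_one] at hb
  have hb' : (1 : B) = (r : B) * (Nat.gcdA r (p ^ n) : B) + (p : B) ^ n * (Nat.gcdB r (p ^ n) : B) := by
    have := congrArg (Int.cast : ℤ → B) hb
    push_cast at this
    exact this
  have e : y = (Nat.gcdA r (p ^ n) : B) * ((r : B) * y) +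
      (p : B) ^ n * ((Nat.gcdB r (p ^ n) : B) * y) := by
    calc y = 1 * y := (one_mul y).symm
      _ = _ := by rw [hb']; ring
  rw [e]
  exact Ideal.add_mem _ (Ideal.mul_mem_left _ _ hy) (hp _)

/-- An element of order prime to `p` which acts trivially on `B / P` and on `P / P ^ 2` acts
trivially. -/
lemma smul_eq_self [IsDomain B] [IsNoetherianRing B] {P : Ideal B} (hP : P ≠ ⊤) {p : ℕ}
    (hp : (p : B) ∈ P) {r : ℕ} (hr : Nat.Coprime r p) {h : G} (hh : h ^ r = 1)
    (h0 : ∀ x : B, h • x - x ∈ P) (h1 : ∀ x ∈ P, h • x - x ∈ P ^ 2) (x : B) : h • x = x := by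
  have key : ∀ n : ℕ, ∀ x : B, h • x - x ∈ P ^ n := by
    intro n
    induction n with
    | zero => simp
    | succ n ih =>
      intro x
      set y := h • x - x with hy
      have hk : ∀ k : ℕ, h ^ k • x - (x + (k : B) * y) ∈ P ^ (n + 1) := by
        intro k
        induction k with
        | zero => simp
        | succ k ihk =>
          have e : h ^ (k + 1) • x - (x + ((k + 1 : ℕ) : B) * y) =
              h • (h ^ k • x - (x + (k : B) * y)) - (h ^ k • x - (x + (k : B) * y)) +
              (h ^ k • x - (x + (k : B) * y)) + (k : B) * (h • y - y) := by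
            rw [pow_succ', mul_smul, smul_sub, smul_add, smul_mul', hy]
            have : h • (k : B) = (k : B) := by
              rw [← MulSemiringAction.toRingHom_apply, map_natCast]
            rw [this, smul_sub]
            push_cast
            ring
          rw [e]
          refine Ideal.add_mem _ (Ideal.add_mem _ ?_ ihk) (Ideal.mul_mem_left _ _ ?_)
          · have := smul_sub_mem_pow_succ h0 h1 (n + 1) _ ihk
            exact Ideal.pow_le_pow_right (Nat.le_succ _) this
          · exact smul_sub_mem_pow_succ h0 h1 n _ (ih x)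
      have h2 := hk r
      rw [hh, one_smul] at h2
      have h3 : (r : B) * y ∈ P ^ (n + 1) := by
        have := (P ^ (n + 1)).neg_mem h2
        simpa using this
      exact mem_of_mul_mem (n := n + 1) hr
        (fun z => Ideal.mul_mem_right _ _ (Ideal.pow_mem_pow hp _)) h3
  have h4 : h • x - x ∈ (⨅ n : ℕ, P ^ n : Ideal B) := by
    rw [Ideal.mem_iInf]
    exact fun n => key n x
  rw [Ideal.iInf_pow_eq_bot_of_isDomain P hP, Ideal.mem_bot] at h4
  exact sub_eq_zero.1 h4

/-- The tame relation. -/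
theorem tame_relation [IsDedekindDomain B] [FaithfulSMul G B] (P : Ideal B) [hPm : P.IsMaximal]
    (hP : P ≠ ⊥) {p : ℕ} (hp : (p : B) ∈ P) {r : ℕ} (hr : Nat.Coprime r p)
    (hG : ∀ g : G, g ^ r = 1) {τ σ : G} (hτ : ∀ x : B, τ • x - x ∈ P)
    (hσ : ∀ x : B, σ • x - x ^ p ∈ P) (hp0 : p ≠ 0) : σ * τ * σ⁻¹ = τ ^ p := by
  -- `σ` preserves `P` and `P ^ 2`
  have hσP : ∀ x ∈ P, σ • x ∈ P := by
    intro x hx
    have := Ideal.add_mem _ (hσ x) (Ideal.pow_mem_of_mem P hx p (Nat.pos_of_ne_zero hp0))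
    simpa using this
  have hσP' : ∀ x ∈ P, σ⁻¹ • x ∈ P := by
    intro x hx
    have h1 := hσ (σ⁻¹ • x)
    rw [smul_inv_smul] at h1
    have h2 : (σ⁻¹ • x) ^ p ∈ P := by
      have := Ideal.sub_mem _ hx h1
      simpa using this
    exact hPm.isPrime.mem_of_pow_mem _ h2
  have hτP : ∀ x ∈ P, τ • x ∈ P := by
    intro x hx
    have := Ideal.add_mem _ (hτ x) hx
    simpa using this
  have hsq : ∀ g : G, (∀ x ∈ P, g • x ∈ P) → ∀ x ∈ P ^ 2, g • x ∈ P ^ 2 := by
    intro g hg x hx
    rw [pow_two] at hx ⊢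
    induction hx using Submodule.mul_induction_on' with
    | mem_mul_mem a ha b hb =>
      rw [smul_mul']
      exact Ideal.mul_mem_mul (hg a ha) (hg b hb)
    | add a _ b _ ha hb =>
      rw [smul_add]
      exact Ideal.add_mem _ ha hb
  -- the tame character
  obtain ⟨c, hc⟩ : ∃ c : B, ∀ y ∈ P, τ • y - c * y ∈ P ^ 2 := by
    have hne : P ^ 2 ≠ P := by
      intro h
      have h1 : P ^ 2 < P ^ 1 := Ideal.pow_right_strictAnti P hP hPm.ne_top (by norm_num)
      rw [pow_one, h] at h1
      exact lt_irrefl _ h1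
    obtain ⟨π, hπ, hπ2⟩ : ∃ π ∈ P, π ∉ P ^ 2 := by
      by_contra hcon
      push Not at hcon
      exact hne (le_antisymm (Ideal.pow_le_self (by norm_num)) hcon)
    have hexp : ∀ y ∈ P, ∃ d : B, ∃ e ∈ P ^ 2, π * d + e = y := by
      intro y hy
      have := Ideal.exists_mul_add_mem_pow_succ (P := P) (i := 1) hP π y (by simpa using hπ)
        (by simpa using hπ2) (by simpa using hy)
      simpa using this
    obtain ⟨c, e, he, hce⟩ := hexp _ (hτP π hπ)
    refine ⟨c, fun y hy => ?_⟩
    obtain ⟨d, e', he', rfl⟩ := hexp y hy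
    have : τ • (π * d + e') - c * (π * d + e') =
        (τ • d - d) * (τ • π) + d * e + (τ • e') - c * e' := by
      rw [smul_add, smul_mul', ← hce]
      ring
    rw [this]
    refine Ideal.sub_mem _ (Ideal.add_mem _ (Ideal.add_mem _ ?_ ?_) ?_) ?_
    · rw [pow_two]
      exact Ideal.mul_mem_mul (hτ d) (hτP π hπ)
    · exact Ideal.mul_mem_left _ _ he
    · exact hsq τ hτP _ he'
    · exact Ideal.mul_mem_left _ _ he'
  -- powers of `τ`
  have hτpow : ∀ k : ℕ, (∀ x : B, τ ^ k • x - x ∈ P) ∧
      ∀ y ∈ P, τ ^ k • y - c ^ k * y ∈ P ^ 2 := by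
    intro k
    induction k with
    | zero => constructor <;> simp
    | succ k ih =>
      constructor
      · intro x
        have : τ ^ (k + 1) • x - x = (τ • (τ ^ k • x) - τ ^ k • x) + (τ ^ k • x - x) := by
          rw [pow_succ', mul_smul]
          ring
        rw [this]
        exact Ideal.add_mem _ (hτ _) (ih.1 x)
      · intro y hy
        have h1 : τ ^ (k + 1) • y - c ^ (k + 1) * y = τ • (τ ^ k • y - c ^ k * y) +
            ((τ • (c ^ k) - c ^ k) * (τ • y)) + c ^ k * (τ • y - c * y) := by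
          rw [pow_succ', mul_smul, smul_sub, smul_mul']
          ring
        rw [h1]
        refine Ideal.add_mem _ (Ideal.add_mem _ ?_ ?_) ?_
        · exact hsq τ hτP _ (ih.2 y hy)
        · rw [pow_two]
          exact Ideal.mul_mem_mul (hτ _) (hτP y hy)
        · exact Ideal.mul_mem_left _ _ (hc y hy)
  -- the conjugate of `τ`
  have hconj0 : ∀ x : B, (σ * τ * σ⁻¹) • x - x ∈ P := by
    intro x
    have h1 := hσP _ (hτ (σ⁻¹ • x))
    rw [smul_sub, smul_inv_smul] at h1
    rwa [mul_smul, mul_smul]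
  have hconj1 : ∀ y ∈ P, (σ * τ * σ⁻¹) • y - c ^ p * y ∈ P ^ 2 := by
    intro y hy
    have h1 := hsq σ hσP _ (hc _ (hσP' y hy))
    rw [smul_sub, smul_mul', smul_inv_smul] at h1
    have h2 : (σ * τ * σ⁻¹) • y - c ^ p * y =
        (σ • τ • σ⁻¹ • y - (σ • c) * y) + (σ • c - c ^ p) * y := by
      rw [mul_smul, mul_smul]
      ring
    rw [h2]
    refine Ideal.add_mem _ h1 ?_
    rw [pow_two]
    exact Ideal.mul_mem_mul (hσ c) hy
  -- inverse of `τ ^ p`
  have hinvP : ∀ x ∈ P, (τ ^ p)⁻¹ • x ∈ P := by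
    intro x hx
    have h1 := (hτpow p).1 ((τ ^ p)⁻¹ • x)
    rw [smul_inv_smul] at h1
    have := Ideal.sub_mem _ hx h1
    simpa using this
  set h := (τ ^ p)⁻¹ * (σ * τ * σ⁻¹) with hh
  have hh0 : ∀ x : B, h • x - x ∈ P := by
    intro x
    have h1 := hinvP _ (Ideal.sub_mem _ (hconj0 x) ((hτpow p).1 x))
    have e : h • x - x = (τ ^ p)⁻¹ • ((σ * τ * σ⁻¹) • x - x - (τ ^ p • x - x)) := by
      rw [hh, mul_smul, smul_sub, smul_sub, smul_sub, inv_smul_smul]
      ring
    rwa [e]
  have hh1 : ∀ x ∈ P, h • x - x ∈ P ^ 2 := by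
    intro x hx
    have h1 := hsq _ hinvP _ (Ideal.sub_mem _ (hconj1 x hx) ((hτpow p).2 x hx))
    have e : h • x - x =
        (τ ^ p)⁻¹ • ((σ * τ * σ⁻¹) • x - c ^ p * x - (τ ^ p • x - c ^ p * x)) := by
      rw [hh, mul_smul, smul_sub, smul_sub, smul_sub, inv_smul_smul]
      ring
    rwa [e]
  have hone : h = 1 := by
    apply eq_of_smul_eq_smul (α := B)
    intro x
    rw [one_smul]
    exact smul_eq_self hPm.ne_top hp hr (hG h) hh0 hh1 x
  rw [hh, inv_mul_eq_one] at hone
  exact hone.symm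

end Pool.Agent.V1143.CD
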